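import Pool.Agent.S11.Defs

/-!
# Project S12: the Foelner condition (in a weak form) for the groups which embed in a group with boxes

PROOF of `fol_of_box`.  `S = f(C)`, `ε` with `ε * (C.card + 1) < 1`; `E' ⊆ E` from `FBox Γ`.  Partition `E` by the cosets
`x * f.range`: some coset has `E_x` nonempty and `(1 - ε) * E_x.card ≤ E'_x.card`.  `F` = preimage of `x⁻¹ E_x` under `f`,
`F'` = preimage of `x⁻¹ E'_x`; `F' * C ⊆ F`, so `G = F ∪ (F \ F') * C` has at most `F.card + ε F.card C.card < 2 F.card`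
elements.  `Fol.left`: inverses.
-/

set_option autoImplicit false
set_option linter.unusedSectionVars false

namespace Pool.Agent.S12

open Pool.Agent.S11

/-- a weak form of the Foelner condition -/
def Fol (Q : Type) [Group Q] : Prop :=
  ∀ C : Finset Q, ∃ F G : Finset Q, (∀ f ∈ F, ∀ c ∈ C, f * c ∈ G) ∧ G.card < 2 * F.card

section

variable {Q : Type} [Group Q]

/-- the other side -/
theorem Fol.left (h : Fol Q) (C : Finset Q) :
    ∃ F G : Finset Q, (∀ f ∈ F, ∀ c ∈ C, c * f ∈ G) ∧ G.card < 2 * F.card := by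
  classical
  obtain ⟨F, G, h1, h2⟩ := h (C.image fun c => c⁻¹)
  refine ⟨F.image fun f => f⁻¹, G.image fun f => f⁻¹, ?_, ?_⟩
  · intro f hf c hc
    obtain ⟨f', hf', rfl⟩ := Finset.mem_image.1 hf
    refine Finset.mem_image.2 ⟨f' * c⁻¹, h1 f' hf' _ (Finset.mem_image_of_mem _ hc), ?_⟩
    group
  · rw [Finset.card_image_of_injective _ inv_injective, Finset.card_image_of_injective _ inv_injective]
    exact h2

/-- **The Foelner condition** -/
theorem fol_of_box {Γ : Type} [Group Γ] (f : Q →* Γ) (hf : Function.Injective f) (hΓ : FBox Γ) : Fol Q := by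
  classical
  intro C
  have hC : (0 : ℝ) < (C.card : ℝ) + 1 := by positivity
  obtain ⟨W, B, hW, E, E', -, -, -, hbij, hE', hS, hcard⟩ := hΓ (C.image f) (1 / ((C.card : ℝ) + 1)) (by positivity)
  set ε : ℝ := 1 / ((C.card : ℝ) + 1) with hε
  have hεC : ε * (C.card : ℝ) < 1 := by
    rw [hε, one_div, inv_mul_lt_iff₀ hC]
    linarith
  -- `E` is not empty
  have hne : E.Nonempty := by
    obtain ⟨⟨b, e⟩, -⟩ := hbij.2 1
    exact ⟨e, e.2⟩
  -- a coset
  obtain ⟨κ, hκ, hle⟩ : ∃ κ ∈ E.image (QuotientGroup.mk : Γ → Γ ⧸ f.range),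
      (1 - ε) * ((E.filter fun e => (QuotientGroup.mk e : Γ ⧸ f.range) = κ).card : ℝ) ≤
        ((E'.filter fun e => (QuotientGroup.mk e : Γ ⧸ f.range) = κ).card : ℝ) := by
    refine Finset.exists_le_of_sum_le (hne.image _) ?_
    rw [← Finset.mul_sum]
    have h1 := Finset.card_eq_sum_card_fiberwise (s := E) (f := (QuotientGroup.mk : Γ → Γ ⧸ f.range))
      (t := E.image (QuotientGroup.mk : Γ → Γ ⧸ f.range)) (fun e he => Finset.mem_coe.2 (Finset.mem_image_of_mem _ he))
    have h2 := Finset.card_eq_sum_card_fiberwise (s := E') (f := (QuotientGroup.mk : Γ → Γ ⧸ f.range))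
      (t := E.image (QuotientGroup.mk : Γ → Γ ⧸ f.range))
      (fun e he => Finset.mem_coe.2 (Finset.mem_image_of_mem _ (hE' he)))
    have h3 : ((E.card : ℕ) : ℝ) = ∑ κ ∈ E.image (QuotientGroup.mk : Γ → Γ ⧸ f.range),
        ((E.filter fun e => (QuotientGroup.mk e : Γ ⧸ f.range) = κ).card : ℝ) := by
      exact_mod_cast h1
    have h4 : ((E'.card : ℕ) : ℝ) = ∑ κ ∈ E.image (QuotientGroup.mk : Γ → Γ ⧸ f.range),
        ((E'.filter fun e => (QuotientGroup.mk e : Γ ⧸ f.range) = κ).card : ℝ) := by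
      exact_mod_cast h2
    rw [← h3, ← h4]
    exact hcard
  obtain ⟨x, hx, rfl⟩ := Finset.mem_image.1 hκ
  -- the preimages
  let g : Q → Γ := fun q => x * f q
  have hg : Function.Injective g := fun a b hab => hf (mul_left_cancel hab)
  have hrange : ∀ e : Γ, e ∈ Set.range g ↔ (QuotientGroup.mk e : Γ ⧸ f.range) = (QuotientGroup.mk x : Γ ⧸ f.range) := by
    intro e
    rw [eq_comm, QuotientGroup.eq]
    constructor
    · rintro ⟨q, rfl⟩
      exact ⟨q, by simp [g]⟩
    · rintro ⟨q, hq⟩
      exact ⟨q, by simp [g, hq]⟩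
  have hcp : ∀ T : Finset Γ, (T.preimage g hg.injOn).card =
      (T.filter fun e => (QuotientGroup.mk e : Γ ⧸ f.range) = (QuotientGroup.mk x : Γ ⧸ f.range)).card := by
    intro T
    rw [Finset.card_preimage]
    congr 1
    exact Finset.filter_congr fun e _ => hrange e
  set F := E.preimage g hg.injOn with hF
  set F' := E'.preimage g hg.injOn with hF'
  have h5 : (1 - ε) * (F.card : ℝ) ≤ F'.card := by
    rw [hcp, hcp]
    exact hle
  have h6 : F' ⊆ F := fun q hq => Finset.mem_preimage.2 (hE' (Finset.mem_preimage.1 hq))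
  have h7 : F.Nonempty := ⟨1, Finset.mem_preimage.2 (by simpa [g] using hx)⟩
  refine ⟨F, F ∪ ((F \ F') ×ˢ C).image fun p => p.1 * p.2, ?_, ?_⟩
  · intro q hq c hc
    by_cases h8 : q ∈ F'
    · refine Finset.mem_union_left _ (Finset.mem_preimage.2 ?_)
      have h9 := hS _ (Finset.mem_preimage.1 h8) (f c) (Finset.mem_image_of_mem _ hc)
      simpa [g, mul_assoc] using h9
    · exact Finset.mem_union_right _ (Finset.mem_image.2 ⟨(q, c), Finset.mem_product.2
        ⟨Finset.mem_sdiff.2 ⟨hq, h8⟩, hc⟩, rfl⟩)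
  · have h8 : (F ∪ ((F \ F') ×ˢ C).image fun p => p.1 * p.2).card ≤ F.card + (F \ F').card * C.card :=
      (Finset.card_union_le _ _).trans (Nat.add_le_add_left ((Finset.card_image_le).trans
        (Finset.card_product _ _).le) _)
    have h9 : (F \ F').card + F'.card = F.card := Finset.card_sdiff_add_card_eq_card h6
    have h10 : ((F \ F').card : ℝ) ≤ ε * F.card := by
      have : ((F \ F').card : ℝ) + F'.card = F.card := by exact_mod_cast h9
      linarith
    have h11 : (0 : ℝ) < F.card := by exact_mod_cast h7.card_pos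
    have h12 : ((F \ F').card : ℝ) * C.card < F.card := by
      calc ((F \ F').card : ℝ) * C.card ≤ ε * F.card * C.card :=
            mul_le_mul_of_nonneg_right h10 (by positivity)
        _ = (ε * C.card) * F.card := by ring
        _ < 1 * F.card := by exact mul_lt_mul_of_pos_right hεC h11
        _ = F.card := one_mul _
    have h13 : (F \ F').card * C.card < F.card := by exact_mod_cast h12
    omega

end

end Pool.Agent.S12
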