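import Mathlib

/-!
# Project S12: a system of linear equations over a division ring with more unknowns than equations
-/

set_option autoImplicit false

namespace Pool.Agent.S12

/-- unknowns on the left -/
theorem exists_left {D : Type*} [DivisionRing D] {m n : Type*} [Fintype m] [Fintype n] (M : m → n → D)
    (h : Fintype.card n < Fintype.card m) : ∃ v : m → D, v ≠ 0 ∧ ∀ j, ∑ i, v i * M i j = 0 := by
  let f : (m → D) →ₗ[D] (n → D) := Fintype.linearCombination D M
  have h1 : LinearMap.ker f ≠ ⊥ := LinearMap.ker_ne_bot_of_finrank_lt (by simpa using h)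
  obtain ⟨v, hv, hv0⟩ := (Submodule.ne_bot_iff _).1 h1
  refine ⟨v, hv0, fun j => ?_⟩
  have h2 := congrFun (LinearMap.mem_ker.1 hv) j
  rw [Fintype.linearCombination_apply, Finset.sum_apply] at h2
  exact h2

/-- unknowns on the right -/
theorem exists_right {D : Type*} [DivisionRing D] {m n : Type*} [Fintype m] [Fintype n] (M : m → n → D)
    (h : Fintype.card n < Fintype.card m) : ∃ v : m → D, v ≠ 0 ∧ ∀ j, ∑ i, M i j * v i = 0 := by
  obtain ⟨v, hv0, hv⟩ := exists_left (D := Dᵐᵒᵖ) (fun i j => MulOpposite.op (M i j)) h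
  refine ⟨fun i => (v i).unop, fun h0 => hv0 (funext fun i => ?_), fun j => ?_⟩
  · exact MulOpposite.unop_injective (congrFun h0 i)
  · apply MulOpposite.op_injective
    rw [MulOpposite.op_zero, ← hv j]
    rw [Finset.op_sum]
    rfl

end Pool.Agent.S12
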