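import Mathlib

/-!
# Project S12: fractions of a subring of a division ring with the Ore condition
-/

set_option autoImplicit false

namespace Pool.Agent.S12

section

variable {V : Type*} [DivisionRing V] (S : Subring V)

/-- the left Ore condition -/
def LOre : Prop := ∀ u ∈ S, ∀ t ∈ S, t ≠ 0 → ∃ p ∈ S, ∃ r ∈ S, p ≠ 0 ∧ p * u = r * t

/-- the right Ore condition -/
def ROre : Prop := ∀ u ∈ S, ∀ t ∈ S, t ≠ 0 → ∃ p ∈ S, ∃ r ∈ S, p ≠ 0 ∧ u * p = t * r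

variable {S}

/-- the subfield of the left fractions -/
theorem exists_lfrac (h : LOre S) : ∃ E : Subfield V, ∀ a, a ∈ E ↔ ∃ s ∈ S, s ≠ 0 ∧ s * a ∈ S := by
  refine ⟨{ carrier := {a | ∃ s ∈ S, s ≠ 0 ∧ s * a ∈ S}
            mul_mem' := ?_, one_mem' := ?_, add_mem' := ?_, zero_mem' := ?_, neg_mem' := ?_, inv_mem' := ?_ },
    fun a => Iff.rfl⟩
  · rintro a b ⟨s, hs, hs0, hsa⟩ ⟨t, ht, ht0, htb⟩
    obtain ⟨p, hp, r, hr, hp0, hpr⟩ := h (s * a) hsa t ht ht0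
    refine ⟨p * s, S.mul_mem hp hs, mul_ne_zero hp0 hs0, ?_⟩
    have e : p * s * (a * b) = r * (t * b) := by
      rw [← mul_assoc, mul_assoc p s a, hpr, mul_assoc]
    rw [e]
    exact S.mul_mem hr htb
  · exact ⟨1, S.one_mem, one_ne_zero, by rw [mul_one]; exact S.one_mem⟩
  · rintro a b ⟨s, hs, hs0, hsa⟩ ⟨t, ht, ht0, htb⟩
    obtain ⟨p, hp, r, hr, hp0, hpr⟩ := h s hs t ht ht0
    refine ⟨p * s, S.mul_mem hp hs, mul_ne_zero hp0 hs0, ?_⟩
    have e : p * s * (a + b) = p * (s * a) + r * (t * b) := by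
      rw [mul_add, mul_assoc, hpr, mul_assoc]
    rw [e]
    exact S.add_mem (S.mul_mem hp hsa) (S.mul_mem hr htb)
  · exact ⟨1, S.one_mem, one_ne_zero, by rw [mul_zero]; exact S.zero_mem⟩
  · rintro a ⟨s, hs, hs0, hsa⟩
    exact ⟨s, hs, hs0, by rw [mul_neg]; exact S.neg_mem hsa⟩
  · rintro a ⟨s, hs, hs0, hsa⟩
    by_cases ha : a = 0
    · exact ⟨1, S.one_mem, one_ne_zero, by rw [ha, inv_zero, mul_zero]; exact S.zero_mem⟩
    · exact ⟨s * a, hsa, mul_ne_zero hs0 ha, by rw [mul_inv_cancel_right₀ ha]; exact hs⟩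

/-- the subfield of the right fractions -/
theorem exists_rfrac (h : ROre S) : ∃ E : Subfield V, ∀ a, a ∈ E ↔ ∃ s ∈ S, s ≠ 0 ∧ a * s ∈ S := by
  refine ⟨{ carrier := {a | ∃ s ∈ S, s ≠ 0 ∧ a * s ∈ S}
            mul_mem' := ?_, one_mem' := ?_, add_mem' := ?_, zero_mem' := ?_, neg_mem' := ?_, inv_mem' := ?_ },
    fun a => Iff.rfl⟩
  · rintro b a ⟨t, ht, ht0, htb⟩ ⟨s, hs, hs0, hsa⟩
    obtain ⟨p, hp, r, hr, hp0, hpr⟩ := h (a * s) hsa t ht ht0
    refine ⟨s * p, S.mul_mem hs hp, mul_ne_zero hs0 hp0, ?_⟩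
    have e : b * a * (s * p) = b * t * r := by
      rw [mul_assoc, ← mul_assoc a s p, hpr, mul_assoc]
    rw [e]
    exact S.mul_mem htb hr
  · exact ⟨1, S.one_mem, one_ne_zero, by rw [mul_one]; exact S.one_mem⟩
  · rintro a b ⟨s, hs, hs0, hsa⟩ ⟨t, ht, ht0, htb⟩
    obtain ⟨p, hp, r, hr, hp0, hpr⟩ := h s hs t ht ht0
    refine ⟨s * p, S.mul_mem hs hp, mul_ne_zero hs0 hp0, ?_⟩
    have e : (a + b) * (s * p) = a * s * p + b * t * r := by
      rw [add_mul, ← mul_assoc, mul_assoc b t r, hpr]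
    rw [e]
    exact S.add_mem (S.mul_mem hsa hp) (S.mul_mem htb hr)
  · exact ⟨1, S.one_mem, one_ne_zero, by rw [zero_mul]; exact S.zero_mem⟩
  · rintro a ⟨s, hs, hs0, hsa⟩
    exact ⟨s, hs, hs0, by rw [neg_mul]; exact S.neg_mem hsa⟩
  · rintro a ⟨s, hs, hs0, hsa⟩
    by_cases ha : a = 0
    · exact ⟨1, S.one_mem, one_ne_zero, by rw [ha, inv_zero, zero_mul]; exact S.zero_mem⟩
    · exact ⟨a * s, hsa, mul_ne_zero ha hs0, by rw [inv_mul_cancel_left₀ ha]; exact hs⟩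

/-- common left denominators -/
theorem common_left (h : LOre S) (F : Finset V) (hF : ∀ a ∈ F, ∃ s ∈ S, s ≠ 0 ∧ s * a ∈ S) :
    ∃ s ∈ S, s ≠ 0 ∧ ∀ a ∈ F, s * a ∈ S := by
  classical
  induction F using Finset.induction_on with
  | empty => exact ⟨1, S.one_mem, one_ne_zero, fun a ha => absurd ha (Finset.notMem_empty a)⟩
  | insert b F _ ih =>
    obtain ⟨s, hs, hs0, hsF⟩ := ih fun a ha => hF a (Finset.mem_insert_of_mem ha)
    obtain ⟨t, ht, ht0, htb⟩ := hF b (Finset.mem_insert_self b F)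
    obtain ⟨p, hp, r, hr, hp0, hpr⟩ := h s hs t ht ht0
    refine ⟨p * s, S.mul_mem hp hs, mul_ne_zero hp0 hs0, fun a ha => ?_⟩
    rcases Finset.mem_insert.1 ha with rfl | ha
    · rw [hpr, mul_assoc]
      exact S.mul_mem hr htb
    · rw [mul_assoc]
      exact S.mul_mem hp (hsF a ha)

/-- common right denominators -/
theorem common_right (h : ROre S) (F : Finset V) (hF : ∀ a ∈ F, ∃ s ∈ S, s ≠ 0 ∧ a * s ∈ S) :
    ∃ s ∈ S, s ≠ 0 ∧ ∀ a ∈ F, a * s ∈ S := by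
  classical
  induction F using Finset.induction_on with
  | empty => exact ⟨1, S.one_mem, one_ne_zero, fun a ha => absurd ha (Finset.notMem_empty a)⟩
  | insert b F _ ih =>
    obtain ⟨s, hs, hs0, hsF⟩ := ih fun a ha => hF a (Finset.mem_insert_of_mem ha)
    obtain ⟨t, ht, ht0, htb⟩ := hF b (Finset.mem_insert_self b F)
    obtain ⟨p, hp, r, hr, hp0, hpr⟩ := h s hs t ht ht0
    refine ⟨s * p, S.mul_mem hs hp, mul_ne_zero hs0 hp0, fun a ha => ?_⟩
    rcases Finset.mem_insert.1 ha with rfl | ha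
    · rw [hpr, ← mul_assoc]
      exact S.mul_mem htb hr
    · rw [← mul_assoc]
      exact S.mul_mem (hsF a ha) hp

end

end Pool.Agent.S12
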