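import Pool.Agent.S12.Chain0
import Pool.Agent.S11.CuF

/-!
# Project S12: the approximations of a countable residually unitriangular group (`r = 1`)

The chain is `N 0 = ⊤`, `N s = ⊥` for `s ≥ 1`.
-/

set_option autoImplicit false
set_option linter.unusedSectionVars false

namespace Pool.Agent.S12

open Pool.Agent.S11 Pool.Agent.S11.Cu

/-- subgroups -/
theorem RUT.comap {H G : Type} [Group H] [Group G] {f : H →* G} (hf : Function.Injective f) (h : RUT G) : RUT H := by
  intro x hx
  obtain ⟨n, φ, h1, h2⟩ := h (f x) fun h0 => hx (hf (h0.trans f.map_one.symm))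
  exact ⟨n, φ.comp f, fun y => h1 (f y), h2⟩

/-- residually a finite two-group -/
theorem RUT.res2 {H : Type} [Group H] (h : RUT H) : Res2 H := by
  intro x hx
  obtain ⟨n, φ, hφ, h2⟩ := h x hx
  have hi : toUT φ hφ x ≠ 1 := fun h0 => h2 ((toUT_eq_one φ hφ x).1 h0)
  obtain ⟨W, hW, ⟨k, hk⟩, hxW⟩ := res2_UT (n := n) (toUT φ hφ x) hi
  refine ⟨W.comap (toUT φ hφ), hW.comap _, ?_, hxW⟩
  have h1 : (W.comap (toUT φ hφ)).index ∣ 2 ^ k := by
    rw [Subgroup.index_comap, ← hk]
    exact Subgroup.relIndex_dvd_index_of_normal _ _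
  obtain ⟨m, -, hm⟩ := (Nat.dvd_prime_pow Nat.prime_two).1 h1
  exact ⟨m, hm⟩

/-- for countable groups there is one sequence of homomorphisms -/
theorem RUT.seq {H : Type} [Group H] [Countable H] (h : RUT H) :
    ∃ (n : ℕ → ℕ) (φ : ∀ i, H →* Matrix (Fin (n i)) (Fin (n i)) ℤ),
      (∀ i y, (∀ a, φ i y a a = 1) ∧ ∀ a b, b < a → φ i y a b = 0) ∧ ∀ x, (∀ i, φ i x = 1) → x = 1 := by
  classical
  obtain ⟨f, hf⟩ := exists_surjective_nat H
  have h1 : ∀ i, ∃ (n : ℕ) (φ : H →* Matrix (Fin n) (Fin n) ℤ),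
      (∀ y, (∀ a, φ y a a = 1) ∧ ∀ a b, b < a → φ y a b = 0) ∧ (f i ≠ 1 → φ (f i) ≠ 1) := by
    intro i
    by_cases h' : f i = 1
    · exact ⟨0, 1, fun y => isUT_one, fun h2 => absurd h' h2⟩
    · obtain ⟨n, φ, h2, h3⟩ := h (f i) h'
      exact ⟨n, φ, h2, fun _ => h3⟩
  choose n φ h2 h4 using h1
  refine ⟨n, φ, h2, fun x hx => ?_⟩
  by_contra hcon
  obtain ⟨i, rfl⟩ := hf x
  exact h4 i hcon (hx i)

/-- the chain with one step -/
def N01 (H : Type) [Group H] : ℕ → Subgroup H := fun s => if s = 0 then ⊤ else ⊥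

theorem N01_zero (H : Type) [Group H] : N01 H 0 = ⊤ := if_pos rfl

theorem N01_succ (H : Type) [Group H] (s : ℕ) : N01 H (s + 1) = ⊥ := if_neg (Nat.succ_ne_zero s)

theorem N01_anti (H : Type) [Group H] : Antitone (N01 H) := by
  intro a b hab
  rcases Nat.eq_zero_or_pos a with h | h
  · subst h
    rw [N01_zero]
    exact le_top
  · obtain ⟨b', rfl⟩ : ∃ b', b = b' + 1 := ⟨b - 1, by omega⟩
    rw [N01_succ]
    exact bot_le

theorem N01_normal (H : Type) [Group H] (s : ℕ) : (N01 H s).Normal := by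
  rcases s with _ | s
  · rw [N01_zero]
    infer_instance
  · rw [N01_succ]
    infer_instance

/-- **The approximations** -/
theorem RUT.exists_appr {H : Type} [Group H] [Countable H] (h : RUT H) :
    ∃ (bo : BO H) (N : ℕ → Subgroup H) (_ : @Chain0 H _ bo 1 N) (A : @Appr H _ bo N), ∀ j, FBox (A.Γ j 1) := by
  obtain ⟨n, φ, hφ, hker⟩ := h.seq
  have hnot : ∀ s x, x ∉ N01 H s → x ≠ 1 := fun s x hx h1 => hx (h1 ▸ (N01 H s).one_mem)
  let D : Dat H 1 (N01 H) :=
    { Q := fun s i => UT ℤ (n i)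
      grp := fun _ _ => inferInstance
      bo := fun _ _ => inferInstance
      φ := fun s i => if s = 0 then 1 else toUT (φ i) (hφ i)
      triv := fun s i x hx => by
        rcases s with _ | s
        · rfl
        · rw [N01_succ, Subgroup.mem_bot] at hx
          rw [hx, map_one]
      sepa := fun s x hx => by
        rcases s with _ | s
        · rw [N01_zero] at hx
          exact absurd (Subgroup.mem_top x) hx
        · by_contra hcon
          push Not at hcon
          refine hnot _ x hx (hker x fun i => ?_)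
          have h1 := hcon i
          rw [if_neg (Nat.succ_ne_zero s)] at h1
          exact (toUT_eq_one (φ i) (hφ i) x).1 h1 }
  have hlast := N01_succ H 0
  have hanti := N01_anti H
  refine ⟨D.ord hlast, N01 H, @Chain0.mk H _ (D.ord hlast) 1 (N01 H) (N01_zero H) hlast hanti (N01_normal H)
    (D.cvx hlast hanti), D.appr hlast hanti, fun j => ?_⟩
  exact fbox_pi (Q := fun p : Fin (1 + 1) ×ₗ Fin (j + 1) => UT ℤ (n (ofLex p).2)) fun p => fbox_UT

end Pool.Agent.S12
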