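import Pool.Agent.S11.Defs

/-!
# Project S12: chains of convex normal subgroups (no condition on the quotients), residually unitriangular groups
-/

set_option autoImplicit false
set_option linter.unusedSectionVars false

namespace Pool.Agent.S12

open Pool.Agent.S11

/-- a chain of convex normal subgroups (used with `r = 1`, `N 0 = ⊤`, `N 1 = ⊥`) -/
structure Chain0 (H : Type) [Group H] [BO H] (r : ℕ) (N : ℕ → Subgroup H) : Prop where
  zero : N 0 = ⊤
  last : N r = ⊥
  anti : Antitone N
  normal : ∀ s, (N s).Normal
  cvx : ∀ s, Cvx (N s)

/-- `H` is residually unitriangular over the integers: for all `x ≠ 1` there is a homomorphism from `H` to a group of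
unitriangular integer matrices which does not kill `x`.  (For finitely generated groups this is the same as residually
torsion-free nilpotent.) -/
def RUT (H : Type) [Group H] : Prop :=
  ∀ x : H, x ≠ 1 → ∃ (n : ℕ) (φ : H →* Matrix (Fin n) (Fin n) ℤ),
    (∀ y, (∀ a, φ y a a = 1) ∧ ∀ a b, b < a → φ y a b = 0) ∧ φ x ≠ 1

end Pool.Agent.S12
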