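import Pool.Agent.S11.CstB

/-!
# Project S12: the series which meet finitely many cosets of a normal subgroup
-/

set_option autoImplicit false
set_option linter.unusedSectionVars false

open Pointwise

namespace Pool.Agent.S12

open Pool.Agent.S11

section

variable {H : Type} [Group H] [BO H] (N : Subgroup H)

/-- the cosets which meet the support -/
def cos (f : MN H) : Set (H ⧸ N) := (fun x : H => (x : H ⧸ N)) '' f.supp

variable {N} in
theorem mem_cos {f : MN H} {α : H ⧸ N} : α ∈ cos N f ↔ ∃ x : H, f.c x ≠ 0 ∧ (x : H ⧸ N) = α := Iff.rfl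

variable [N.Normal]

theorem cos_add (f g : MN H) : cos N (f + g) ⊆ cos N f ∪ cos N g := by
  rintro _ ⟨x, hx, rfl⟩
  rcases MN.supp_add f g hx with h | h
  · exact Or.inl ⟨x, h, rfl⟩
  · exact Or.inr ⟨x, h, rfl⟩

theorem cos_mul (f g : MN H) : cos N (f * g) ⊆ cos N f * cos N g := by
  rintro _ ⟨x, hx, rfl⟩
  obtain ⟨a, ha, b, hb, rfl⟩ := Set.mem_mul.1 (MN.supp_mul f g hx)
  exact Set.mem_mul.2 ⟨_, ⟨a, ha, rfl⟩, _, ⟨b, hb, rfl⟩, rfl⟩

/-- the series which meet finitely many cosets of `N` -/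
def SN : Subring (MN H) where
  carrier := {f | (cos N f).Finite}
  mul_mem' := by
    intro f g hf hg
    exact (Set.Finite.mul hf hg).subset (cos_mul N f g)
  one_mem' := by
    refine (Set.finite_singleton ((1 : H) : H ⧸ N)).subset ?_
    rintro _ ⟨x, hx, rfl⟩
    by_cases h : x = 1
    · rw [h]; rfl
    · exact absurd (MN.c_one_ne h) hx
  add_mem' := by
    intro f g hf hg
    exact (Set.Finite.union hf hg).subset (cos_add N f g)
  zero_mem' := by
    refine Set.finite_empty.subset ?_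
    rintro _ ⟨x, hx, rfl⟩
    exact absurd (MN.c_zero x) hx
  neg_mem' := by
    intro f hf
    refine Set.Finite.subset hf ?_
    rintro _ ⟨x, hx, rfl⟩
    refine ⟨x, fun h => hx ?_, rfl⟩
    rw [MN.c_neg, h, neg_zero]

theorem mem_SN {f : MN H} : f ∈ SN N ↔ (cos N f).Finite := Iff.rfl

theorem of_mem_SN (a : MonoidAlgebra (ZMod 2) H) : MN.of a ∈ SN N := by
  refine ((a.coeff.support.finite_toSet).image fun x : H => (x : H ⧸ N)).subset ?_
  rintro _ ⟨x, hx, rfl⟩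
  refine ⟨x, ?_, rfl⟩
  have h1 : (MN.of a).c x ≠ 0 := hx
  rw [MN.c_of] at h1
  exact Finset.mem_coe.2 (Finsupp.mem_support_iff.2 h1)

theorem g_mem_SN (x : H) : MN.g x ∈ SN N := of_mem_SN N _

theorem pr_eq_zero {f : MN H} {α : H ⧸ N} (h : α ∉ cos N f) : pr N α f = 0 := by
  refine MN.ext (funext fun x => ?_)
  by_cases hx : (x : H ⧸ N) = α
  · rw [pr_c N _ _ _ hx]
    by_contra h0
    exact h ⟨x, h0, hx⟩
  · rw [pr_c_ne N _ _ _ hx]
    rfl

theorem pr_ne_zero {f : MN H} {α : H ⧸ N} (h : α ∈ cos N f) : pr N α f ≠ 0 := by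
  obtain ⟨x, hx, rfl⟩ := h
  intro h0
  apply hx
  rw [← pr_c N (x : H ⧸ N) f x rfl, h0]
  rfl

theorem pr_ne_zero_iff {f : MN H} {α : H ⧸ N} : pr N α f ≠ 0 ↔ α ∈ cos N f :=
  ⟨fun h => by
    by_contra h0
    exact h (pr_eq_zero N h0), pr_ne_zero N⟩

open Classical in
theorem pr_sum_pr (A : Finset (H ⧸ N)) (f : MN H) (β : H ⧸ N) :
    pr N β (∑ α ∈ A, pr N α f) = if β ∈ A then pr N β f else 0 := by
  rw [map_sum]
  simp_rw [pr_pr]
  rw [Finset.sum_ite_eq]

/-- the decomposition -/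
theorem sum_pr (A : Finset (H ⧸ N)) (f : MN H) (h : cos N f ⊆ A) : ∑ α ∈ A, pr N α f = f := by
  classical
  rw [← sub_eq_zero]
  refine eq_zero_of_pr N fun β => ?_
  rw [map_sub, pr_sum_pr]
  split_ifs with hβ
  · rw [sub_self]
  · rw [pr_eq_zero N fun h' => hβ (h h'), sub_zero]

theorem pr_pr_mul (μ α : H ⧸ N) (s a : MN H) : pr N α (pr N μ s * a) = pr N μ s * pr N (μ⁻¹ * α) a := by
  obtain ⟨u, rfl⟩ := QuotientGroup.mk_surjective μ
  obtain ⟨d, hd, h1⟩ := pr_eq_g_mul N u s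
  have h2 := pr_g_mul N ((u : H ⧸ N)⁻¹ * α) u (d * a)
  rw [mul_inv_cancel_left] at h2
  rw [h1, mul_assoc, ← h2, pr_d_mul N _ _ hd, mul_assoc]

theorem pr_mul_pr (ν α : H ⧸ N) (b s : MN H) : pr N α (b * pr N ν s) = pr N (α * ν⁻¹) b * pr N ν s := by
  obtain ⟨u, rfl⟩ := QuotientGroup.mk_surjective ν
  obtain ⟨d, hd, h1⟩ := pr_eq_mul_g N u s
  have h2 := pr_mul_g N (α * (u : H ⧸ N)⁻¹) u⁻¹ (b * d)
  rw [QuotientGroup.mk_inv, inv_inv, mul_inv_cancel_right] at h2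
  rw [h1, ← mul_assoc, ← h2, pr_mul_d N _ _ hd, mul_assoc]

/-- a component of a product -/
theorem pr_mul_left (M : Finset (H ⧸ N)) (s : MN H) (h : cos N s ⊆ M) (α : H ⧸ N) (a : MN H) :
    pr N α (s * a) = ∑ μ ∈ M, pr N μ s * pr N (μ⁻¹ * α) a := by
  conv_lhs => rw [← sum_pr N M s h]
  rw [Finset.sum_mul, map_sum]
  exact Finset.sum_congr rfl fun μ _ => pr_pr_mul N μ α s a

/-- a component of a product -/
theorem pr_mul_right (M : Finset (H ⧸ N)) (s : MN H) (h : cos N s ⊆ M) (α : H ⧸ N) (b : MN H) :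
    pr N α (b * s) = ∑ ν ∈ M, pr N (α * ν⁻¹) b * pr N ν s := by
  conv_lhs => rw [← sum_pr N M s h]
  rw [Finset.mul_sum, map_sum]
  exact Finset.sum_congr rfl fun ν _ => pr_mul_pr N ν α b s

end

end Pool.Agent.S12
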