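import Pool.Agent.S12.Ore
import Pool.Agent.S12.LinD
import Pool.Agent.S12.SN
import Pool.Agent.S12.Fol

/-!
# Project S12: the Ore condition for the ring `SN N` if the quotient `H ⧸ N` satisfies the Foelner condition

PROOF.  `u, t ∈ SN N`, `t ≠ 0`; `C` = the cosets of `u` and `t` (Finset), `F, G` from `Fol`.  For `f ∈ H ⧸ N` let `h f : H` be a
representative (`Quotient.out`).  `MN.g (h f) * u` has its cosets in `f * C ⊆ G`.  By `pr_eq_mul_g` write
`pr N γ (MN.g (h f) * u) = a f γ * MN.g (h γ)`, `a f γ ∈ DN N` (and `b f γ` for `t`).  `exists_left` over the division ring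
`DN N` with the unknowns indexed by `F ⊕ F` and the equations by `G`: `∑ v f * a f γ - ∑ w f * b f γ = 0` for `γ ∈ G`,
`(v, w) ≠ 0`.  `p = ∑ v f * MN.g (h f)`, `r = ∑ w f * MN.g (h f)`: `p * u = r * t` by `eq_zero_of_pr` (`pr_d_mul`).  `p ≠ 0`:
otherwise `r * t = 0`, `r = 0`, and `pr N f p = v f * MN.g (h f)` (distinct cosets), so `v = w = 0`.
The right version is the mirror image (`Fol.left`, `exists_right`, `pr_eq_g_mul`, `pr_mul_d`).
-/

set_option autoImplicit false
set_option linter.unusedSectionVars false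

open Pointwise

namespace Pool.Agent.S12

open Pool.Agent.S11

section

variable {H : Type} [Group H] [BO H] (N : Subgroup H) [N.Normal]

theorem c_g_ne {x y : H} (h : (MN.g x).c y ≠ 0) : x = y := by
  by_contra h0
  apply h
  rw [← mul_one (MN.g x), MN.c_g_mul, MN.c_one_ne]
  intro h1
  exact h0 (inv_mul_eq_one.1 h1)

theorem cos_g (x : H) : cos N (MN.g x) ⊆ {(x : H ⧸ N)} := by
  rintro _ ⟨y, hy, rfl⟩
  rw [c_g_ne hy]
  rfl

theorem pr_g_ne {x : H} {α : H ⧸ N} (h : α ≠ (x : H ⧸ N)) : pr N α (MN.g x) = 0 :=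
  pr_eq_zero N fun h' => h (cos_g N x h')

theorem pr_g_self (x : H) : pr N (x : H ⧸ N) (MN.g x) = MN.g x := by
  have h := sum_pr N {(x : H ⧸ N)} (MN.g x) (by rw [Finset.coe_singleton]; exact cos_g N x)
  rwa [Finset.sum_singleton] at h

theorem DN_le_SN {f : MN H} (h : f ∈ DN N) : f ∈ SN N := by
  refine (Set.finite_singleton ((1 : H) : H ⧸ N)).subset ?_
  rintro _ ⟨x, hx, rfl⟩
  rw [Set.mem_singleton_iff, QuotientGroup.mk_one, QuotientGroup.eq_one_iff]
  exact h x hx

/-- the cosets of a translate -/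
theorem cos_g_mul {C : Finset (H ⧸ N)} {u : MN H} (hu : cos N u ⊆ C) (x : H) {α : H ⧸ N} (h : α ∈ cos N (MN.g x * u)) :
    ∃ c ∈ C, (x : H ⧸ N) * c = α := by
  obtain ⟨a, ha, b, hb, rfl⟩ := Set.mem_mul.1 (cos_mul N _ _ h)
  rw [Set.mem_singleton_iff.1 (cos_g N x ha)]
  exact ⟨b, hu hb, rfl⟩

theorem cos_mul_g {C : Finset (H ⧸ N)} {u : MN H} (hu : cos N u ⊆ C) (x : H) {α : H ⧸ N} (h : α ∈ cos N (u * MN.g x)) :
    ∃ c ∈ C, c * (x : H ⧸ N) = α := by
  obtain ⟨a, ha, b, hb, rfl⟩ := Set.mem_mul.1 (cos_mul N _ _ h)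
  rw [Set.mem_singleton_iff.1 (cos_g N x hb)]
  exact ⟨a, hu ha, rfl⟩

/-- the components of a combination of representatives -/
theorem pr_comb_left (F : Finset (H ⧸ N)) (v : F → DN N) (f : F) :
    pr N (f : H ⧸ N) (∑ e : F, (v e : MN H) * MN.g (e : H ⧸ N).out) = (v f : MN H) * MN.g (f : H ⧸ N).out := by
  classical
  rw [map_sum, Finset.sum_eq_single f]
  · rw [pr_d_mul N _ _ (v f).2]
    have h := pr_g_self N (f : H ⧸ N).out
    rw [QuotientGroup.out_eq'] at h
    rw [h]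
  · intro e _ he
    rw [pr_d_mul N _ _ (v e).2, pr_g_ne, mul_zero]
    rw [QuotientGroup.out_eq']
    exact fun h => he (Subtype.ext h.symm)
  · intro h
    exact absurd (Finset.mem_univ _) h

theorem pr_comb_right (F : Finset (H ⧸ N)) (v : F → DN N) (f : F) :
    pr N (f : H ⧸ N) (∑ e : F, MN.g (e : H ⧸ N).out * (v e : MN H)) = MN.g (f : H ⧸ N).out * (v f : MN H) := by
  classical
  rw [map_sum, Finset.sum_eq_single f]
  · rw [pr_mul_d N _ _ (v f).2]
    have h := pr_g_self N (f : H ⧸ N).out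
    rw [QuotientGroup.out_eq'] at h
    rw [h]
  · intro e _ he
    rw [pr_mul_d N _ _ (v e).2, pr_g_ne, zero_mul]
    rw [QuotientGroup.out_eq']
    exact fun h => he (Subtype.ext h.symm)
  · intro h
    exact absurd (Finset.mem_univ _) h

theorem g_ne_zero (x : H) : MN.g x ≠ 0 := by
  intro h
  have h1 : MN.g x * MN.g x⁻¹ = 1 := by rw [← MN.g_mul, mul_inv_cancel, MN.g_one]
  rw [h, zero_mul] at h1
  exact zero_ne_one h1

theorem comb_left_eq_zero (F : Finset (H ⧸ N)) (v : F → DN N)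
    (h : (∑ e : F, (v e : MN H) * MN.g (e : H ⧸ N).out) = 0) (f : F) : v f = 0 := by
  have h1 := pr_comb_left N F v f
  rw [h, map_zero] at h1
  rcases mul_eq_zero.1 h1.symm with h2 | h2
  · exact Subtype.ext h2
  · exact absurd h2 (g_ne_zero _)

theorem comb_right_eq_zero (F : Finset (H ⧸ N)) (v : F → DN N)
    (h : (∑ e : F, MN.g (e : H ⧸ N).out * (v e : MN H)) = 0) (f : F) : v f = 0 := by
  have h1 := pr_comb_right N F v f
  rw [h, map_zero] at h1
  rcases mul_eq_zero.1 h1.symm with h2 | h2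
  · exact absurd h2 (g_ne_zero _)
  · exact Subtype.ext h2

theorem exists_co_left (s : MN H) (γ : H ⧸ N) : ∃ d : DN N, pr N γ s = (d : MN H) * MN.g γ.out := by
  obtain ⟨d, hd, h⟩ := pr_eq_mul_g N γ.out s
  rw [QuotientGroup.out_eq'] at h
  exact ⟨⟨d, hd⟩, h⟩

theorem exists_co_right (s : MN H) (γ : H ⧸ N) : ∃ d : DN N, pr N γ s = MN.g γ.out * (d : MN H) := by
  obtain ⟨d, hd, h⟩ := pr_eq_g_mul N γ.out s
  rw [QuotientGroup.out_eq'] at h
  exact ⟨⟨d, hd⟩, h⟩

theorem comb_left_mem (F : Finset (H ⧸ N)) (v : F → DN N) :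
    (∑ e : F, (v e : MN H) * MN.g (e : H ⧸ N).out) ∈ SN N :=
  Subring.sum_mem _ fun e _ => Subring.mul_mem _ (DN_le_SN N (v e).2) (g_mem_SN N _)

theorem comb_right_mem (F : Finset (H ⧸ N)) (v : F → DN N) :
    (∑ e : F, MN.g (e : H ⧸ N).out * (v e : MN H)) ∈ SN N :=
  Subring.sum_mem _ fun e _ => Subring.mul_mem _ (g_mem_SN N _) (DN_le_SN N (v e).2)

theorem pr_comb_mul (F : Finset (H ⧸ N)) (v : F → DN N) (s : MN H) (γ : H ⧸ N) :
    pr N γ ((∑ e : F, (v e : MN H) * MN.g (e : H ⧸ N).out) * s) = ∑ e : F, (v e : MN H) * pr N γ (MN.g (e : H ⧸ N).out * s) := by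
  rw [Finset.sum_mul, map_sum]
  refine Finset.sum_congr rfl fun e _ => ?_
  rw [mul_assoc, pr_d_mul N _ _ (v e).2]

theorem pr_mul_comb (F : Finset (H ⧸ N)) (v : F → DN N) (s : MN H) (γ : H ⧸ N) :
    pr N γ (s * ∑ e : F, MN.g (e : H ⧸ N).out * (v e : MN H)) = ∑ e : F, pr N γ (s * MN.g (e : H ⧸ N).out) * (v e : MN H) := by
  rw [Finset.mul_sum, map_sum]
  refine Finset.sum_congr rfl fun e _ => ?_
  rw [← mul_assoc, pr_mul_d N _ _ (v e).2]

/-- **The left Ore condition** -/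
theorem lore_SN (h : Fol (H ⧸ N)) : LOre (SN N) := by
  classical
  intro u hu t ht ht0
  have hu' : (cos N u).Finite := hu
  have ht' : (cos N t).Finite := ht
  obtain ⟨F, G, hFG, hcard⟩ := h (hu'.toFinset ∪ ht'.toFinset)
  have huC : cos N u ⊆ (hu'.toFinset ∪ ht'.toFinset : Finset (H ⧸ N)) := fun a ha =>
    Finset.mem_coe.2 (Finset.mem_union_left _ (hu'.mem_toFinset.2 ha))
  have htC : cos N t ⊆ (hu'.toFinset ∪ ht'.toFinset : Finset (H ⧸ N)) := fun a ha =>
    Finset.mem_coe.2 (Finset.mem_union_right _ (ht'.mem_toFinset.2 ha))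
  choose a ha using fun (f : H ⧸ N) (γ : H ⧸ N) => exists_co_left N (MN.g f.out * u) γ
  choose b hb using fun (f : H ⧸ N) (γ : H ⧸ N) => exists_co_left N (MN.g f.out * t) γ
  obtain ⟨v, hv0, hv⟩ := exists_left (D := DN N) (m := F ⊕ F) (n := G)
    (fun i γ => Sum.elim (fun f : F => a f γ) (fun f : F => -b f γ) i) (by
      rw [Fintype.card_sum, Fintype.card_coe, Fintype.card_coe]
      omega)
  have heq : (∑ e : F, (v (Sum.inl e) : MN H) * MN.g (e : H ⧸ N).out) * u =
      (∑ e : F, (v (Sum.inr e) : MN H) * MN.g (e : H ⧸ N).out) * t := by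
    rw [← sub_eq_zero]
    refine eq_zero_of_pr N fun γ => ?_
    rw [map_sub, pr_comb_mul N F (fun e => v (Sum.inl e)), pr_comb_mul N F (fun e => v (Sum.inr e))]
    by_cases hγ : γ ∈ G
    · have h1 := hv ⟨γ, hγ⟩
      rw [Fintype.sum_sum_type] at h1
      have h2 := congrArg (fun x : DN N => (x : MN H) * MN.g γ.out) h1
      simp only [Sum.elim_inl, Sum.elim_inr, mul_neg, Finset.sum_neg_distrib, ← sub_eq_add_neg, AddSubgroupClass.coe_sub,
        ZeroMemClass.coe_zero, zero_mul, sub_mul, AddSubmonoidClass.coe_finsetSum, MulMemClass.coe_mul, Finset.sum_mul, mul_assoc] at h2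
      rw [← h2]
      simp only [ha, hb]
    · have h1 : ∀ e : F, pr N γ (MN.g (e : H ⧸ N).out * u) = 0 := fun e => pr_eq_zero N fun h' => by
        obtain ⟨c, hc, hce⟩ := cos_g_mul N huC _ h'
        rw [QuotientGroup.out_eq'] at hce
        exact hγ (hce ▸ hFG e e.2 c hc)
      have h2 : ∀ e : F, pr N γ (MN.g (e : H ⧸ N).out * t) = 0 := fun e => pr_eq_zero N fun h' => by
        obtain ⟨c, hc, hce⟩ := cos_g_mul N htC _ h'
        rw [QuotientGroup.out_eq'] at hce
        exact hγ (hce ▸ hFG e e.2 c hc)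
      simp only [h1, h2, mul_zero, Finset.sum_const_zero, sub_zero]
  refine ⟨∑ e : F, (v (Sum.inl e) : MN H) * MN.g (e : H ⧸ N).out, comb_left_mem N F _,
    ∑ e : F, (v (Sum.inr e) : MN H) * MN.g (e : H ⧸ N).out, comb_left_mem N F _, ?_, heq⟩
  intro h0
  rw [h0, zero_mul] at heq
  have h1 := (mul_eq_zero.1 heq.symm).resolve_right ht0
  apply hv0
  funext i
  rcases i with i | i
  · exact comb_left_eq_zero N F (fun e => v (Sum.inl e)) h0 i
  · exact comb_left_eq_zero N F (fun e => v (Sum.inr e)) h1 i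

/-- **The right Ore condition** -/
theorem rore_SN (h : Fol (H ⧸ N)) : ROre (SN N) := by
  classical
  intro u hu t ht ht0
  have hu' : (cos N u).Finite := hu
  have ht' : (cos N t).Finite := ht
  obtain ⟨F, G, hFG, hcard⟩ := h.left (hu'.toFinset ∪ ht'.toFinset)
  have huC : cos N u ⊆ (hu'.toFinset ∪ ht'.toFinset : Finset (H ⧸ N)) := fun a ha =>
    Finset.mem_coe.2 (Finset.mem_union_left _ (hu'.mem_toFinset.2 ha))
  have htC : cos N t ⊆ (hu'.toFinset ∪ ht'.toFinset : Finset (H ⧸ N)) := fun a ha =>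
    Finset.mem_coe.2 (Finset.mem_union_right _ (ht'.mem_toFinset.2 ha))
  choose a ha using fun (f : H ⧸ N) (γ : H ⧸ N) => exists_co_right N (u * MN.g f.out) γ
  choose b hb using fun (f : H ⧸ N) (γ : H ⧸ N) => exists_co_right N (t * MN.g f.out) γ
  obtain ⟨v, hv0, hv⟩ := exists_right (D := DN N) (m := F ⊕ F) (n := G)
    (fun i γ => Sum.elim (fun f : F => a f γ) (fun f : F => -b f γ) i) (by
      rw [Fintype.card_sum, Fintype.card_coe, Fintype.card_coe]
      omega)
  have heq : u * (∑ e : F, MN.g (e : H ⧸ N).out * (v (Sum.inl e) : MN H)) =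
      t * (∑ e : F, MN.g (e : H ⧸ N).out * (v (Sum.inr e) : MN H)) := by
    rw [← sub_eq_zero]
    refine eq_zero_of_pr N fun γ => ?_
    rw [map_sub, pr_mul_comb N F (fun e => v (Sum.inl e)), pr_mul_comb N F (fun e => v (Sum.inr e))]
    by_cases hγ : γ ∈ G
    · have h1 := hv ⟨γ, hγ⟩
      rw [Fintype.sum_sum_type] at h1
      have h2 := congrArg (fun x : DN N => MN.g γ.out * (x : MN H)) h1
      simp only [Sum.elim_inl, Sum.elim_inr, neg_mul, Finset.sum_neg_distrib, ← sub_eq_add_neg, AddSubgroupClass.coe_sub,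
        ZeroMemClass.coe_zero, mul_zero, mul_sub, AddSubmonoidClass.coe_finsetSum, MulMemClass.coe_mul, Finset.mul_sum] at h2
      rw [← h2]
      simp only [ha, hb, mul_assoc]
    · have h1 : ∀ e : F, pr N γ (u * MN.g (e : H ⧸ N).out) = 0 := fun e => pr_eq_zero N fun h' => by
        obtain ⟨c, hc, hce⟩ := cos_mul_g N huC _ h'
        rw [QuotientGroup.out_eq'] at hce
        exact hγ (hce ▸ hFG e e.2 c hc)
      have h2 : ∀ e : F, pr N γ (t * MN.g (e : H ⧸ N).out) = 0 := fun e => pr_eq_zero N fun h' => by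
        obtain ⟨c, hc, hce⟩ := cos_mul_g N htC _ h'
        rw [QuotientGroup.out_eq'] at hce
        exact hγ (hce ▸ hFG e e.2 c hc)
      simp only [h1, h2, zero_mul, Finset.sum_const_zero, sub_zero]
  refine ⟨∑ e : F, MN.g (e : H ⧸ N).out * (v (Sum.inl e) : MN H), comb_right_mem N F _,
    ∑ e : F, MN.g (e : H ⧸ N).out * (v (Sum.inr e) : MN H), comb_right_mem N F _, ?_, heq⟩
  intro h0
  rw [h0, mul_zero] at heq
  have h1 := (mul_eq_zero.1 heq.symm).resolve_left ht0
  apply hv0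
  funext i
  rcases i with i | i
  · exact comb_right_eq_zero N F (fun e => v (Sum.inl e)) h0 i
  · exact comb_right_eq_zero N F (fun e => v (Sum.inr e)) h1 i

end

end Pool.Agent.S12
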