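import Pool.Agent.S12.FlatE
import Pool.Agent.S12.OreSN
import Pool.Agent.S11.Pack
import Pool.Agent.S11.StA

/-!
# Project S12: the division closure of the group algebra in the good series, with its anti-automorphism

`D₀` = a division ring in the series with an anti-automorphism `st₀` which extends the inversion of the group algebra, such that finitely many
elements of `D₀` are fine with respect to a convex normal subgroup with a quotient which satisfies the Foelner condition.
The subfield `E` of `D₀` generated by the group algebra is stable under `st₀`, and it is contained in the left and right fractions of `SN N`.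
-/

set_option autoImplicit false
set_option linter.unusedSectionVars false

open TensorProduct

namespace Pool.Agent.S12

open Pool.Agent.S11 Pool.Agent.S11.FL

section

variable {D₀ : Type} [DivisionRing D₀]

/-- the anti-automorphism preserves the subfield generated by an invariant set -/
theorem st_closure (st : D₀ → D₀) (st_add : ∀ a b, st (a + b) = st a + st b)
    (st_mul : ∀ a b, st (a * b) = st b * st a) (st_st : ∀ a, st (st a) = a) (R : Set D₀)
    (hR : ∀ a ∈ R, st a ∈ Subfield.closure R) : ∀ a ∈ Subfield.closure R, st a ∈ Subfield.closure R := by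
  have st_zero : st 0 = 0 := by
    have h1 := st_add 0 0
    rw [add_zero] at h1
    exact (add_eq_left.1 h1.symm)
  have st_one : st 1 = 1 := by
    have h1 := st_mul 1 1
    rw [mul_one] at h1
    have h2 : st 1 ≠ 0 := fun h0 => by
      have h3 := st_st 1
      rw [h0, st_zero] at h3
      exact zero_ne_one h3
    exact (mul_eq_left₀ h2).1 h1.symm
  have st_neg : ∀ a, st (-a) = -st a := fun a => by
    have h1 := st_add a (-a)
    rw [add_neg_cancel, st_zero] at h1
    exact (neg_eq_of_add_eq_zero_right h1.symm).symm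
  have st_inv : ∀ a, st a⁻¹ = (st a)⁻¹ := fun a => by
    by_cases ha : a = 0
    · rw [ha, inv_zero, st_zero, inv_zero]
    · have h1 := st_mul a a⁻¹
      rw [mul_inv_cancel₀ ha, st_one] at h1
      exact eq_inv_of_mul_eq_one_left h1.symm
  intro a ha
  induction ha using Subfield.closure_induction with
  | mem x hx => exact hR x hx
  | one => rw [st_one]; exact (Subfield.closure R).one_mem
  | add x y _ _ hx hy => rw [st_add]; exact (Subfield.closure R).add_mem hx hy
  | neg x _ hx => rw [st_neg]; exact (Subfield.closure R).neg_mem hx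
  | inv x _ hx => rw [st_inv]; exact (Subfield.closure R).inv_mem hx
  | mul x y _ _ hx hy => rw [st_mul]; exact (Subfield.closure R).mul_mem hy hx

end

section

variable {H : Type} [Group H] [BO H] {D₀ : Type} [DivisionRing D₀]

/-- **The package from a division ring in the series.** -/
theorem exists_dpack_of (i₀ : D₀ →+* MN H) (ι₀ : MonoidAlgebra (ZMod 2) H →+* D₀)
    (hι₀ : ∀ a, i₀ (ι₀ a) = MN.of a)
    (st : D₀ → D₀) (st_add : ∀ a b, st (a + b) = st a + st b) (st_mul : ∀ a b, st (a * b) = st b * st a)
    (st_st : ∀ a, st (st a) = a) (st_of : ∀ a, st (ι₀ a) = ι₀ (stA a))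
    (hfine : ∀ F : Finset D₀, ∃ (N : Subgroup H) (_ : N.Normal), Cvx N ∧ Fol (H ⧸ N) ∧ ∀ a ∈ F, Fine N (i₀ a))
    (hgrow : ∀ (D : Type) [DivisionRing D] [Algebra (ZMod 2) D] (κ : D →+* D₀) (ι : MonoidAlgebra (ZMod 2) H →+* D),
      (∀ a, κ (ι a) = ι₀ a) → Grow ι) : Nonempty (DPack H) := by
  classical
  let E : Subfield D₀ := Subfield.closure (Set.range ι₀)
  have hE : ∀ a, ι₀ a ∈ E := fun a => Subfield.subset_closure ⟨a, rfl⟩
  have hst : ∀ a ∈ E, st a ∈ E := st_closure st st_add st_mul st_st _ (by
    rintro _ ⟨a, rfl⟩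
    rw [st_of]
    exact hE _)
  let i : E →+* MN H := i₀.comp E.subtype
  let ι : MonoidAlgebra (ZMod 2) H →+* E := ι₀.codRestrict E hE
  have hiι : ∀ a, i (ι a) = MN.of a := hι₀
  have hinj : Function.Injective i := i.injective
  have hchar : CharP E 2 := by
    have h2 : (2 : E) = 0 := by
      apply hinj
      rw [← one_add_one_eq_two, map_add, map_one, MN.add_self, map_zero]
    exact CharTwo.of_one_ne_zero_of_two_eq_zero one_ne_zero h2
  letI alg : Algebra (ZMod 2) E := ZMod.algebra E 2
  let st' : E → E := fun a => ⟨st a.1, hst a.1 a.2⟩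
  -- fractions
  have hfrac : ∀ L : Subfield (MN H), (∀ a, MN.of a ∈ L) → ∀ d : E, i d ∈ L := by
    intro L hL d
    have h1 : E ≤ L.comap i₀ := by
      refine Subfield.closure_le.2 ?_
      rintro _ ⟨a, rfl⟩
      change i₀ (ι₀ a) ∈ L
      rw [hι₀]
      exact hL a
    exact h1 d.2
  have hflat : Flat ((lft ι).tprod (lft ι)) := by
    refine flat_of_frac (T := lft ι) (k := fun g => ι (MonoidAlgebra.single g 1)) i (fun g => hiι _) (fun g d => rfl)
      st' (fun a b => Subtype.ext (st_add a.1 b.1)) (fun a b => Subtype.ext (st_mul a.1 b.1))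
      (fun a => Subtype.ext (st_st a.1)) (fun g => Subtype.ext ?_) fun F => ?_
    · change st (ι₀ (MonoidAlgebra.single g 1)) = ι₀ (MonoidAlgebra.single g⁻¹ 1)
      rw [st_of, stA_single]
    · obtain ⟨N, hN, hcvx, hfol, hf⟩ := hfine (F.image Subtype.val)
      obtain ⟨L, hL⟩ := exists_lfrac (lore_SN N hfol)
      obtain ⟨R, hR⟩ := exists_rfrac (rore_SN N hfol)
      have hLof : ∀ a, MN.of a ∈ L := fun a => (hL _).2 ⟨1, (SN N).one_mem, one_ne_zero, by
        rw [one_mul]; exact of_mem_SN N a⟩
      have hRof : ∀ a, MN.of a ∈ R := fun a => (hR _).2 ⟨1, (SN N).one_mem, one_ne_zero, by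
        rw [mul_one]; exact of_mem_SN N a⟩
      obtain ⟨s, hs, hs0, hsF⟩ := common_left (lore_SN N hfol) (F.image i) fun a ha => by
        obtain ⟨d, _, rfl⟩ := Finset.mem_image.1 ha
        exact (hL _).1 (hfrac L hLof d)
      obtain ⟨s', hs', hs'0, hs'F⟩ := common_right (rore_SN N hfol) (F.image i) fun a ha => by
        obtain ⟨d, _, rfl⟩ := Finset.mem_image.1 ha
        exact (hR _).1 (hfrac R hRof d)
      exact ⟨N, hN, hcvx, fun a ha => hf a.1 (Finset.mem_image_of_mem _ ha),
        ⟨s, hs, hs0, fun a ha => hsF _ (Finset.mem_image_of_mem _ ha)⟩,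
        s', hs', hs'0, fun a ha => hs'F _ (Finset.mem_image_of_mem _ ha)⟩
  exact ⟨{ D := E, div := inferInstance, alg := alg, ι := ι, flat := hflat, grow := hgrow E E.subtype ι fun a => rfl }⟩

end

end Pool.Agent.S12
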