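import Pool.Agent.S12.Chain0
import Pool.Agent.S12.GdA

/-!
# Project S12 GdD: the push forward of a series with a good support

`psh A r j f` is the series over `Γ j r` whose coefficient at `γ` is the sum of the coefficients of `f` over the fibre of `γ`, if the support of `f` is
good at `j`, and `0` otherwise.
-/

set_option autoImplicit false
set_option linter.unusedSectionVars false

open Pointwise

namespace Pool.Agent.S12

open Pool.Agent.S11

section

variable {H : Type} [Group H] [BO H] {r : ℕ} {N : ℕ → Subgroup H}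

open Classical in
/-- the coefficients of the push forward -/
noncomputable def pshc (A : Appr H N) (r j : ℕ) (f : MN H) (γ : A.Γ j r) : ZMod 2 :=
  ∑ᶠ x : H, if A.q j r x = γ then f.c x else 0

variable {A : Appr H N} {j : ℕ}

open Classical in
theorem pshc_finset (f : MN H) (γ : A.Γ j r) (s : Finset H) (hs : ∀ x, f.c x ≠ 0 → A.q j r x = γ → x ∈ s) :
    pshc A r j f γ = ∑ x ∈ s.filter (fun x => A.q j r x = γ), f.c x := by
  unfold pshc
  rw [finsum_eq_sum_of_support_subset (s := s), Finset.sum_filter]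
  intro x hx
  rw [Function.mem_support] at hx
  split_ifs at hx with h
  · exact hs x hx h
  · exact absurd rfl hx

theorem exists_of_pshc {f : MN H} {γ : A.Γ j r} (h : pshc A r j f γ ≠ 0) : ∃ x, f.c x ≠ 0 ∧ A.q j r x = γ := by
  classical
  by_contra hcon
  push Not at hcon
  refine h ?_
  rw [pshc_finset f γ ∅ (fun x h1 h2 => absurd h2 (hcon x h1))]
  simp

theorem pshc_pwo {f : MN H} (h : Gd A r j f.supp) : (Function.support (pshc A r j f)).IsPWO := by
  refine (h r le_rfl).1.mono fun γ hγ => ?_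
  obtain ⟨x, h1, h2⟩ := exists_of_pshc hγ
  exact ⟨x, h1, h2⟩

open Classical in
/-- the push forward -/
noncomputable def psh (A : Appr H N) (r j : ℕ) (f : MN H) : MN (A.Γ j r) :=
  if h : Gd A r j f.supp then ⟨pshc A r j f, pshc_pwo h⟩ else 0

theorem psh_of_not {f : MN H} (h : ¬ Gd A r j f.supp) : psh A r j f = 0 := by
  unfold psh
  rw [dif_neg h]

theorem c_psh {f : MN H} (h : Gd A r j f.supp) (γ : A.Γ j r) : (psh A r j f).c γ = pshc A r j f γ := by
  unfold psh
  rw [dif_pos h]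

open Classical in
theorem c_psh_finset {f : MN H} (h : Gd A r j f.supp) (γ : A.Γ j r) (s : Finset H) (hs : ∀ x, f.c x ≠ 0 → A.q j r x = γ → x ∈ s) :
    (psh A r j f).c γ = ∑ x ∈ s.filter (fun x => A.q j r x = γ), f.c x := by
  rw [c_psh h, pshc_finset f γ s hs]

theorem exists_of_c_psh {f : MN H} {γ : A.Γ j r} (h : (psh A r j f).c γ ≠ 0) : ∃ x, f.c x ≠ 0 ∧ A.q j r x = γ := by
  by_cases h1 : Gd A r j f.supp
  · rw [c_psh h1] at h
    exact exists_of_pshc h
  · rw [psh_of_not h1] at h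
    exact absurd (MN.c_zero _) h

/-- the fibre of the support over `γ` as a finite set -/
noncomputable def fib (hC : Chain0 H r N) {f : MN H} (h : Gd A r j f.supp) (γ : A.Γ j r) : Finset H :=
  (h.fin_fibre hC γ).toFinset

theorem mem_fib {hC : Chain0 H r N} {f : MN H} {h : Gd A r j f.supp} {γ : A.Γ j r} {x : H} :
    x ∈ fib hC h γ ↔ f.c x ≠ 0 ∧ A.q j r x = γ := by
  unfold fib
  rw [Set.Finite.mem_toFinset]
  exact Iff.rfl

theorem c_psh_fib (hC : Chain0 H r N) {f : MN H} (h : Gd A r j f.supp) (γ : A.Γ j r) :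
    (psh A r j f).c γ = ∑ x ∈ fib hC h γ, f.c x := by
  classical
  rw [c_psh_finset h γ (fib hC h γ) (fun x h1 h2 => mem_fib.2 ⟨h1, h2⟩), Finset.filter_true_of_mem]
  exact fun x hx => (mem_fib.1 hx).2

theorem psh_add (hC : Chain0 H r N) {f g : MN H} (hf : Gd A r j f.supp) (hg : Gd A r j g.supp) :
    psh A r j (f + g) = psh A r j f + psh A r j g := by
  classical
  have hfg : Gd A r j (f + g).supp := (hf.union hg).mono (MN.supp_add f g)
  refine MN.ext (funext fun γ => ?_)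
  rw [MN.c_add]
  set s : Finset H := fib hC hf γ ∪ fib hC hg γ with hs
  have h1 : ∀ x, f.c x ≠ 0 → A.q j r x = γ → x ∈ s := fun x h2 h3 => Finset.mem_union_left _ (mem_fib.2 ⟨h2, h3⟩)
  have h2 : ∀ x, g.c x ≠ 0 → A.q j r x = γ → x ∈ s := fun x h2 h3 => Finset.mem_union_right _ (mem_fib.2 ⟨h2, h3⟩)
  have h3 : ∀ x, (f + g).c x ≠ 0 → A.q j r x = γ → x ∈ s := by
    intro x h4 h5
    rw [MN.c_add] at h4
    by_cases h6 : f.c x = 0
    · rw [h6, zero_add] at h4
      exact h2 x h4 h5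
    · exact h1 x h6 h5
  rw [c_psh_finset hfg γ s h3, c_psh_finset hf γ s h1, c_psh_finset hg γ s h2, ← Finset.sum_add_distrib]
  exact Finset.sum_congr rfl fun x _ => MN.c_add f g x

theorem psh_mul (hC : Chain0 H r N) {f g : MN H} (hf : Gd A r j f.supp) (hg : Gd A r j g.supp) :
    psh A r j (f * g) = psh A r j f * psh A r j g := by
  classical
  have hfg : Gd A r j (f * g).supp := (hf.mul hC hg).mono (MN.supp_mul f g)
  refine MN.ext (funext fun γ => ?_)
  -- the relevant elements of `Γ j r`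
  obtain ⟨Λ, hΛ⟩ : ∃ Λ : Finset (A.Γ j r), ∀ α, α ∈ Λ ↔ α ∈ (A.q j r) '' f.supp ∧ α⁻¹ * γ ∈ (A.q j r) '' g.supp :=
    ⟨(fin_mul (hf r le_rfl).1 (hg r le_rfl).1 γ).toFinset, fun α => by rw [Set.Finite.mem_toFinset]; exact Iff.rfl⟩
  set S : Finset H := Λ.biUnion fun α => fib hC hf α with hS
  set T : Finset H := Λ.biUnion fun α => fib hC hg (α⁻¹ * γ) with hT
  have hSq : ∀ a ∈ S, A.q j r a ∈ Λ := by
    intro a ha
    obtain ⟨α, h1, h2⟩ := Finset.mem_biUnion.1 ha
    rw [(mem_fib.1 h2).2]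
    exact h1
  have hSm : ∀ a b, f.c a ≠ 0 → g.c b ≠ 0 → A.q j r a * A.q j r b = γ → a ∈ S ∧ b ∈ T := by
    intro a b h1 h2 h3
    have h4 : (A.q j r a)⁻¹ * γ = A.q j r b := by rw [← h3, inv_mul_cancel_left]
    have h5 : A.q j r a ∈ Λ := (hΛ _).2 ⟨⟨a, h1, rfl⟩, ⟨b, h2, h4.symm⟩⟩
    refine ⟨Finset.mem_biUnion.2 ⟨_, h5, mem_fib.2 ⟨h1, rfl⟩⟩, Finset.mem_biUnion.2 ⟨_, h5, mem_fib.2 ⟨h2, h4.symm⟩⟩⟩
  have hSf : ∀ α ∈ Λ, ∀ a, f.c a ≠ 0 → A.q j r a = α → a ∈ S := fun α h1 a h2 h3 =>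
    Finset.mem_biUnion.2 ⟨α, h1, mem_fib.2 ⟨h2, h3⟩⟩
  have hTg : ∀ α ∈ Λ, ∀ b, g.c b ≠ 0 → A.q j r b = α⁻¹ * γ → b ∈ T := fun α h1 b h2 h3 =>
    Finset.mem_biUnion.2 ⟨α, h1, mem_fib.2 ⟨h2, h3⟩⟩
  -- the right hand side
  have hR : (psh A r j f * psh A r j g).c γ = ∑ a ∈ S, ∑ b ∈ T.filter (fun b => A.q j r a * A.q j r b = γ), f.c a * g.c b := by
    rw [MN.c_mul_finset _ _ γ Λ (by
      intro α h1 h2
      obtain ⟨a, h3, h4⟩ := exists_of_c_psh h1
      obtain ⟨b, h5, h6⟩ := exists_of_c_psh h2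
      exact (hΛ α).2 ⟨⟨a, h3, h4⟩, ⟨b, h5, h6⟩⟩)]
    rw [← Finset.sum_fiberwise_of_maps_to hSq]
    refine Finset.sum_congr rfl fun α hα => ?_
    rw [c_psh_finset hf α S (hSf α hα), c_psh_finset hg (α⁻¹ * γ) T (hTg α hα), Finset.sum_mul]
    refine Finset.sum_congr rfl fun a ha => ?_
    rw [Finset.mul_sum]
    have h1 : A.q j r a = α := (Finset.mem_filter.1 ha).2
    refine Finset.sum_congr (Finset.filter_congr fun b _ => ?_) fun b _ => rfl
    rw [h1, eq_inv_mul_iff_mul_eq]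
  -- the left hand side
  set X : Finset H := (S ×ˢ T).image fun p => p.1 * p.2 with hX
  have hXm : ∀ a ∈ S, ∀ b ∈ T, a * b ∈ X := fun a ha b hb =>
    Finset.mem_image.2 ⟨(a, b), Finset.mem_product.2 ⟨ha, hb⟩, rfl⟩
  have hL : (psh A r j (f * g)).c γ = ∑ a ∈ S, ∑ b ∈ T.filter (fun b => A.q j r a * A.q j r b = γ), f.c a * g.c b := by
    rw [c_psh_finset hfg γ X (by
      intro x h1 h2
      obtain ⟨a, ha, b, hb, rfl⟩ := Set.mem_mul.1 (MN.supp_mul f g h1)
      rw [map_mul] at h2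
      obtain ⟨h3, h4⟩ := hSm a b ha hb h2
      exact hXm a h3 b h4)]
    have h1 : ∀ x ∈ X.filter (fun x => A.q j r x = γ), (f * g).c x = ∑ a ∈ S, f.c a * g.c (a⁻¹ * x) := by
      intro x hx
      refine MN.c_mul_finset f g x S fun a h2 h3 => ?_
      refine (hSm a (a⁻¹ * x) h2 h3 ?_).1
      rw [← map_mul, mul_inv_cancel_left]
      exact (Finset.mem_filter.1 hx).2
    rw [Finset.sum_congr rfl h1, Finset.sum_comm]
    refine Finset.sum_congr rfl fun a ha => ?_
    have h2 : ∑ x ∈ X.filter (fun x => A.q j r x = γ), f.c a * g.c (a⁻¹ * x) =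
        ∑ b ∈ (X.filter (fun x => A.q j r x = γ)).image (fun x => a⁻¹ * x), f.c a * g.c b := by
      rw [Finset.sum_image]
      intro x _ y _ hxy
      exact mul_left_cancel hxy
    rw [h2]
    refine (Finset.sum_subset ?_ ?_).symm
    · intro b hb
      obtain ⟨h3, h4⟩ := Finset.mem_filter.1 hb
      refine Finset.mem_image.2 ⟨a * b, Finset.mem_filter.2 ⟨hXm a ha b h3, by rw [map_mul]; exact h4⟩, by simp⟩
    · intro b hb hb'
      obtain ⟨x, hx, rfl⟩ := Finset.mem_image.1 hb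
      by_contra hne
      have h3 : g.c (a⁻¹ * x) ≠ 0 := fun h0 => hne (by rw [h0, mul_zero])
      have h4 : A.q j r a * A.q j r (a⁻¹ * x) = γ := by
        rw [← map_mul, mul_inv_cancel_left]
        exact (Finset.mem_filter.1 hx).2
      refine hb' (Finset.mem_filter.2 ⟨?_, h4⟩)
      refine hTg (A.q j r a) (hSq a ha) _ h3 ?_
      rw [eq_inv_mul_iff_mul_eq]
      exact h4
  rw [hL, hR]

theorem gd_of (a : MonoidAlgebra (ZMod 2) H) : Gd A r j (MN.of a).supp := by
  refine Gd.of_finite (a.coeff.support.finite_toSet.subset fun x hx => ?_)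
  rw [MN.mem_supp, MN.c_of] at hx
  exact Finset.mem_coe.2 (Finsupp.mem_support_iff.2 hx)

theorem gd_one : Gd A r j (1 : MN H).supp := by
  have h := gd_of (A := A) (r := r) (j := j) (1 : MonoidAlgebra (ZMod 2) H)
  rwa [map_one] at h

theorem gd_zero : Gd A r j (0 : MN H).supp := by
  have h := gd_of (A := A) (r := r) (j := j) (0 : MonoidAlgebra (ZMod 2) H)
  rwa [map_zero] at h

theorem psh_of (a : MonoidAlgebra (ZMod 2) H) :
    psh A r j (MN.of a) = MN.of (MonoidAlgebra.mapDomainRingHom (ZMod 2) (A.q j r) a) := by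
  classical
  refine MN.ext (funext fun γ => ?_)
  rw [c_psh_finset (gd_of a) γ a.coeff.support (by
    intro x hx _
    rw [MN.c_of] at hx
    exact Finsupp.mem_support_iff.2 hx)]
  rw [MN.c_of]
  have h1 : (MonoidAlgebra.mapDomainRingHom (ZMod 2) (A.q j r) a).coeff γ = (Finsupp.mapDomain (A.q j r) a.coeff) γ := rfl
  rw [h1, Finsupp.mapDomain, Finsupp.sum_apply, Finsupp.sum, Finset.sum_filter]
  refine Finset.sum_congr rfl fun x _ => ?_
  rw [Finsupp.single_apply, MN.c_of]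

theorem psh_one : psh A r j (1 : MN H) = 1 := by
  have h := psh_of (A := A) (r := r) (j := j) (1 : MonoidAlgebra (ZMod 2) H)
  rwa [map_one, map_one, map_one] at h

theorem psh_zero : psh A r j (0 : MN H) = 0 := by
  have h := psh_of (A := A) (r := r) (j := j) (0 : MonoidAlgebra (ZMod 2) H)
  rwa [map_zero, map_zero, map_zero] at h

end

end Pool.Agent.S12
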