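import Pool.Agent.S12.Chain0
import Pool.Agent.S11.CuG

/-!
# Project S12: examples of residually unitriangular groups
-/

set_option autoImplicit false
set_option linter.unusedSectionVars false

namespace Pool.Agent.S12

open Pool.Agent.S11 Pool.Agent.S11.Cu

/-- groups of the class (U) of project S11 -/
theorem RUT.of_classU {H : Type} [Group H] (h : ClassU H) : RUT H := by
  obtain ⟨r, N, hN⟩ := h
  obtain ⟨n, φ, h1, h2⟩ := hN.uni r
  intro x hx
  by_contra hcon
  push Not at hcon
  refine hx ?_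
  have h3 : x ∈ N r := (h2 x).2 fun i => hcon (n i) (φ i) (h1 i)
  rwa [hN.last, Subgroup.mem_bot] at h3

/-- subgroups of right-angled Artin groups -/
theorem RUT.of_raag {H : Type} [Group H] {r : ℕ} (Γ : SimpleGraph (Fin r)) (f : H →* Pool.Agent.H68.Amp.Raag Γ)
    (hf : Function.Injective f) : RUT H := RUT.of_classU (ClassU.of_raag Γ f hf)

/-- direct products -/
theorem RUT.prod {G H : Type} [Group G] [Group H] (hG : RUT G) (hH : RUT H) : RUT (G × H) := by
  rintro ⟨x, y⟩ hxy
  by_cases hx : x = 1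
  · have hy : y ≠ 1 := fun hy => hxy (by rw [hx, hy]; rfl)
    obtain ⟨n, φ, h1, h2⟩ := hH y hy
    exact ⟨n, φ.comp (MonoidHom.snd G H), fun z => h1 z.2, h2⟩
  · obtain ⟨n, φ, h1, h2⟩ := hG x hx
    exact ⟨n, φ.comp (MonoidHom.fst G H), fun z => h1 z.1, h2⟩

end Pool.Agent.S12
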