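import Pool.Agent.S12.Key
import Pool.Agent.S11.FL.Star
import Pool.Agent.S11.FL.ToFlat

/-!
# Project S12: flatness of `D ⊗ D` for a division ring in the series whose elements are fine and have denominators

PROOF.  `Flat` (S11/Flat.lean) for `f : X → X'`, `t : X ⊗ (D ⊗ D)`.  As in `flat_star` (FL/Star): `i₁ = i ∘ st`, `i₂ = i`, retractions `p₁ = st ∘ pr`,
`p₂ = pl` (`exists_retr_right`, `exists_retr_left`), `I = map i₁ i₂ : D ⊗ D → V ⊗ V`, `P = map p₁ p₂`, equivariant from `T ⊗ T` to `τVV H` and back, `P I = 1`.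
1. `t` is in the span of the `x ⊗ (a ⊗ b)`, `a, b ∈ F₀`, `F₀` a finite subset of `D`.  2. `F` = image of `F₀ ∪ st F₀` under `i`; `hfrac` gives `N, s, s'`.
3. `m = Th H X (id ⊗ I) t ∈ TT X F` (`Th` of FL/ToFlat: `X ⊗ (V ⊗ V) ≃ V ⊗ (X ⊗ V)`).  4. `f.rTensor t ∈ Kr` gives (`Th_Kr`, `Th_rTensor`) `mapX f m ∈ II`, so
`Psi ρ' (mapX f m) = 0` (`Psi_II`), `Psi ρ m = 0` (`Psi_map`, `f` injective), `m ∈ II` (`key`).  5. `Th_Kr`: `(id ⊗ I) t ∈ Kr`, apply `id ⊗ P` (`Kr_map`).
-/

set_option autoImplicit false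
set_option linter.unusedSectionVars false

open TensorProduct

namespace Pool.Agent.S12

open Pool.Agent.S11 Pool.Agent.S11.FL

section

variable {H : Type} [Group H] [BO H] {D : Type} [DivisionRing D] [Module (ZMod 2) D]

/-- **Flatness for the diagonal action** -/
theorem flat_of_frac {T : Representation (ZMod 2) H D} {k : H → D} (i : D →+* MN H) (hk : ∀ g, i (k g) = MN.g g)
    (hT : ∀ g d, T g d = k g * d)
    (st : D → D) (st_add : ∀ a b, st (a + b) = st a + st b) (st_mul : ∀ a b, st (a * b) = st b * st a)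
    (st_st : ∀ a, st (st a) = a) (st_g : ∀ g, st (k g) = k g⁻¹)
    (hfrac : ∀ F : Finset D, ∃ (N : Subgroup H) (_ : N.Normal), Cvx N ∧ (∀ a ∈ F, Fine N (i a)) ∧
      (∃ s ∈ SN N, s ≠ 0 ∧ ∀ a ∈ F, s * i a ∈ SN N) ∧ ∃ s ∈ SN N, s ≠ 0 ∧ ∀ a ∈ F, i a * s ∈ SN N) :
    Flat (T.tprod T) := by
  classical
  obtain ⟨pl, hpl, hpl1⟩ := exists_retr_left i
  obtain ⟨pr, hpr, hpr1⟩ := exists_retr_right i
  let S : D →+ D := AddMonoidHom.mk' st st_add
  let i₁ : D →ₗ[ZMod 2] MN H := (i.toAddMonoidHom.comp S).toZModLinearMap 2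
  let i₂ : D →ₗ[ZMod 2] MN H := i.toAddMonoidHom.toZModLinearMap 2
  let p₁ : MN H →ₗ[ZMod 2] D := (S.comp pr).toZModLinearMap 2
  let p₂ : MN H →ₗ[ZMod 2] D := pl.toZModLinearMap 2
  have hi₁ : ∀ d, i₁ d = i (st d) := fun _ => rfl
  have hi₂ : ∀ d, i₂ d = i d := fun _ => rfl
  have hp₁ : ∀ v, p₁ v = st (pr v) := fun _ => rfl
  have hp₂ : ∀ v, p₂ v = pl v := fun _ => rfl
  have hR : ∀ (g : H) (v : MN H), ρR H g v = v * MN.g g⁻¹ := fun _ _ => rfl
  have hL : ∀ (g : H) (v : MN H), ρL H g v = MN.g g * v := fun _ _ => rfl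
  have hIe : ∀ (g : H) (m : D ⊗[ZMod 2] D), TensorProduct.map i₁ i₂ ((T.tprod T) g m) =
      τVV H g (TensorProduct.map i₁ i₂ m) := by
    intro g m
    unfold τVV
    induction m with
    | zero => simp
    | add a b ha hb => simp only [map_add, ha, hb]
    | tmul a b =>
      simp only [Representation.tprod_apply, TensorProduct.map_tmul, hi₁, hi₂, hR, hL, hT]
      rw [st_mul, map_mul, map_mul, st_g, hk, hk]
  have hPe : ∀ (g : H) (m : MN H ⊗[ZMod 2] MN H), TensorProduct.map p₁ p₂ (τVV H g m) =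
      (T.tprod T) g (TensorProduct.map p₁ p₂ m) := by
    intro g m
    unfold τVV
    induction m with
    | zero => simp
    | add a b ha hb => simp only [map_add, ha, hb]
    | tmul a b =>
      simp only [Representation.tprod_apply, TensorProduct.map_tmul, hp₁, hp₂, hR, hL, hT]
      rw [← hk, ← hk, hpr, hpl, st_mul, st_g, inv_inv]
  have hPI : ∀ m : D ⊗[ZMod 2] D, TensorProduct.map p₁ p₂ (TensorProduct.map i₁ i₂ m) = m := by
    intro m
    induction m with
    | zero => simp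
    | add a b ha hb => simp only [map_add, ha, hb]
    | tmul a b =>
      simp only [TensorProduct.map_tmul, hi₁, hi₂, hp₁, hp₂, hpr1, hpl1, st_st]
  have hT' : ∀ {Z : Type} [AddCommGroup Z] [Module (ZMod 2) Z] {A B : Type} [AddCommGroup A]
      [Module (ZMod 2) A] [AddCommGroup B] [Module (ZMod 2) B]
      (σ : Representation (ZMod 2) H Z) (α : Representation (ZMod 2) H A)
      (β : Representation (ZMod 2) H B) (q : A →ₗ[ZMod 2] B) (_ : ∀ g m, q (α g m) = β g (q m))
      (t : Z ⊗[ZMod 2] A), t ∈ Kr (σ.tprod α) ⊤ → q.lTensor Z t ∈ Kr (σ.tprod β) ⊤ := by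
    intro Z _ _ A B _ _ _ _ σ α β q hq t ht
    refine Kr_map (τ := σ.tprod α) (ρ := σ.tprod β) (fun j _ t => ?_) ht
    induction t with
    | zero => simp
    | add a b ha hb => simp only [map_add, ha, hb]
    | tmul x m => simp [Representation.tprod_apply, hq]
  intro X X' _ _ _ _ ρ ρ' f hf hinj t ht
  set I : D ⊗[ZMod 2] D →ₗ[ZMod 2] MN H ⊗[ZMod 2] MN H := TensorProduct.map i₁ i₂ with hI
  set P : MN H ⊗[ZMod 2] MN H →ₗ[ZMod 2] D ⊗[ZMod 2] D := TensorProduct.map p₁ p₂ with hP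
  -- monotonicity of the spans
  have hTT : ∀ {A B : Finset D}, A ⊆ B → TT X ((A.image i : Finset (MN H)) : Set (MN H)) ≤
      TT X ((B.image i : Finset (MN H)) : Set (MN H)) := by
    intro A B hAB
    refine Submodule.span_mono ?_
    rintro _ ⟨a, x, b, ha, hb, rfl⟩
    exact ⟨a, x, b, Finset.image_subset_image hAB ha, Finset.image_subset_image hAB hb, rfl⟩
  -- the entries
  have hfin : ∀ t : X ⊗[ZMod 2] (D ⊗[ZMod 2] D), ∃ F₀ : Finset D,
      FL.Th H X (I.lTensor X t) ∈ TT X ((F₀.image i : Finset (MN H)) : Set (MN H)) := by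
    intro t
    induction t using TensorProduct.induction_on with
    | zero => exact ⟨∅, by rw [map_zero, map_zero]; exact Submodule.zero_mem _⟩
    | add a b ha hb =>
      obtain ⟨A, hA⟩ := ha
      obtain ⟨B, hB⟩ := hb
      refine ⟨A ∪ B, ?_⟩
      rw [map_add, map_add]
      exact Submodule.add_mem _ (hTT Finset.subset_union_left hA) (hTT Finset.subset_union_right hB)
    | tmul x m =>
      induction m using TensorProduct.induction_on with
      | zero =>
        exact ⟨∅, by rw [TensorProduct.tmul_zero, map_zero, map_zero]; exact Submodule.zero_mem _⟩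
      | add a b ha hb =>
        obtain ⟨A, hA⟩ := ha
        obtain ⟨B, hB⟩ := hb
        refine ⟨A ∪ B, ?_⟩
        rw [TensorProduct.tmul_add, map_add, map_add]
        exact Submodule.add_mem _ (hTT Finset.subset_union_left hA) (hTT Finset.subset_union_right hB)
      | tmul a b =>
        refine ⟨{st a, b}, Submodule.subset_span ⟨i (st a), x, i b, ?_, ?_, rfl⟩⟩
        · exact Finset.mem_coe.2 (Finset.mem_image_of_mem _ (by simp))
        · exact Finset.mem_coe.2 (Finset.mem_image_of_mem _ (by simp))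
  obtain ⟨F₀, hF₀⟩ := hfin t
  obtain ⟨N, hN, hCvx, hFine, ⟨s, hs, hs0, hsF⟩, ⟨s', hs', hs'0, hs'F⟩⟩ := hfrac F₀
  -- the image of the relation
  have h1 : f.rTensor (MN H ⊗[ZMod 2] MN H) (I.lTensor X t) ∈ Kr (ρ'.tprod (τVV H)) ⊤ := by
    have e : f.rTensor (MN H ⊗[ZMod 2] MN H) (I.lTensor X t) = I.lTensor X' (f.rTensor (D ⊗[ZMod 2] D) t) := by
      rw [← LinearMap.comp_apply, ← LinearMap.comp_apply, LinearMap.rTensor_comp_lTensor,
        LinearMap.lTensor_comp_rTensor]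
    rw [e]
    exact hT' ρ' (T.tprod T) (τVV H) I hIe _ ht
  rw [← FL.Th_Kr, FL.Th_rTensor] at h1
  have h2 := Psi_II ρ' h1
  have h3 : Psi ρ (FL.Th H X (I.lTensor X t)) = 0 := by
    funext u
    apply hinj
    rw [← Psi_map ρ ρ' f hf, h2]
    simp
  have h4 : FL.Th H X (I.lTensor X t) ∈ II (gh H) ρ (⊤ : Subgroup H) := by
    refine key N hCvx ρ (F₀.image i) ?_ hs0 hs'0 hs hs' ?_ ?_ hF₀ h3
    · intro a ha
      obtain ⟨d, hd, rfl⟩ := Finset.mem_image.1 ha
      exact hFine d hd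
    · intro a ha
      obtain ⟨d, hd, rfl⟩ := Finset.mem_image.1 ha
      exact hsF d hd
    · intro a ha
      obtain ⟨d, hd, rfl⟩ := Finset.mem_image.1 ha
      exact hs'F d hd
  rw [FL.Th_Kr] at h4
  have h5 := hT' ρ (τVV H) (T.tprod T) P hPe _ h4
  have e : P.lTensor X (I.lTensor X t) = t := by
    rw [← LinearMap.comp_apply, ← LinearMap.lTensor_comp]
    have : P ∘ₗ I = LinearMap.id := LinearMap.ext hPI
    rw [this, LinearMap.lTensor_id]
    rfl
  rwa [e] at h5

end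

end Pool.Agent.S12
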