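import Pool.Agent.S12.Chain0
import Pool.Agent.S12.GdB

/-!
# Project S12, block GOOD, C: the series with good support

`VP hC A` = the series whose support is `j`-good for all large `j`, a sub-division ring of `MN H`.
-/

set_option autoImplicit false
set_option linter.unusedSectionVars false

open Pointwise Filter

namespace Pool.Agent.S12

open Pool.Agent.S11

section

variable {H : Type} [Group H] [BO H] {N : ℕ → Subgroup H} {r : ℕ}

/-- the inverse of a series with good support -/
theorem Gd.inv (hC : Chain0 H r N) (A : Appr H N) {f : MN H} (hf : ∀ᶠ j in atTop, Gd A r j f.supp) :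
    ∀ᶠ j in atTop, Gd A r j (f⁻¹ : MN H).supp := by
  by_cases h0 : f = 0
  · rw [h0, inv_zero]
    refine Eventually.of_forall fun j => (Gd.of_finite (S := (∅ : Set H)) Set.finite_empty).mono ?_
    intro x hx
    exact absurd (MN.c_zero x) hx
  · obtain ⟨x₀, hx₀, hmin⟩ := MN.exists_min h0
    obtain ⟨X, hX⟩ : ∃ X : Set H, X = {y | y ≠ 1 ∧ f.c (x₀ * y) ≠ 0} := ⟨_, rfl⟩
    have h1 : ∀ x ∈ X, 1 < x := by
      intro y hy
      rw [hX] at hy
      have h2 := mul_le_l (hmin _ hy.2) x₀⁻¹
      rw [inv_mul_cancel, inv_mul_cancel_left] at h2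
      exact lt_of_le_of_ne h2 (Ne.symm hy.1)
    have h2 : ∀ᶠ j in atTop, Gd A r j X := by
      filter_upwards [hf] with j hj
      refine (hj.left hC x₀⁻¹).mono ?_
      intro y hy
      rw [hX] at hy
      exact ⟨x₀ * y, hy.2, inv_mul_cancel_left x₀ y⟩
    filter_upwards [Gd.closure hC A h1 h2] with j hj
    refine (hj.right hC x₀⁻¹).mono ?_
    intro x hx
    have h3 := MN.inv_supp hx₀ hmin x hx
    rw [← hX] at h3
    exact ⟨x * x₀, h3, mul_inv_cancel_right x x₀⟩

/-- the series with good support -/
noncomputable def VP (hC : Chain0 H r N) (A : Appr H N) : Subfield (MN H) where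
  carrier := {f | ∀ᶠ j in atTop, Gd A r j f.supp}
  mul_mem' := fun {f g} hf hg => by
    filter_upwards [hf, hg] with j h1 h2
    exact (h1.mul hC h2).mono (MN.supp_mul f g)
  one_mem' := by
    refine Eventually.of_forall fun j => (Gd.of_finite (S := ({1} : Set H)) (Set.finite_singleton 1)).mono ?_
    intro x hx
    by_contra h
    exact hx (MN.c_one_ne h)
  add_mem' := fun {f g} hf hg => by
    filter_upwards [hf, hg] with j h1 h2
    exact (h1.union h2).mono (MN.supp_add f g)
  zero_mem' := by
    refine Eventually.of_forall fun j => (Gd.of_finite (S := (∅ : Set H)) Set.finite_empty).mono ?_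
    intro x hx
    exact absurd (MN.c_zero x) hx
  neg_mem' := fun {f} hf => by
    filter_upwards [hf] with j h1
    refine h1.mono ?_
    intro x hx
    rw [MN.mem_supp, MN.c_neg] at hx
    exact fun h => hx (by rw [h, neg_zero])
  inv_mem' := fun _ hf => Gd.inv hC A hf

theorem mem_VP {hC : Chain0 H r N} {A : Appr H N} {f : MN H} :
    f ∈ VP hC A ↔ ∀ᶠ j in atTop, Gd A r j f.supp := Iff.rfl

theorem of_mem_VP (hC : Chain0 H r N) (A : Appr H N) (a : MonoidAlgebra (ZMod 2) H) : MN.of a ∈ VP hC A := by
  refine Eventually.of_forall fun j => Gd.of_finite (a.coeff.support.finite_toSet.subset fun x hx => ?_)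
  rw [MN.mem_supp, MN.c_of] at hx
  exact Finset.mem_coe.2 (Finsupp.mem_support_iff.2 hx)

theorem g_mem_VP (hC : Chain0 H r N) (A : Appr H N) (x : H) : MN.g x ∈ VP hC A := of_mem_VP hC A _

end

end Pool.Agent.S12
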