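import Pool.Agent.S12.Chain0
import Pool.Agent.S12.Emb
import Pool.Agent.S11.Pack

/-!
# Project S12: the growth property of a division ring with an embedding in the good series
-/

set_option autoImplicit false
set_option linter.unusedSectionVars false

open Filter Matrix

namespace Pool.Agent.S12

open Pool.Agent.S11

section

variable {H : Type} [Group H] [BO H] {r : ℕ} {N : ℕ → Subgroup H}

/-- **The growth property.** -/
theorem grow_of (hC : Chain0 H r N) (A : Appr H N) (hB : ∀ j, FBox (A.Γ j r)) {D : Type} [DivisionRing D] [Algebra (ZMod 2) D]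
    (κ : D →+* MN H) (hκ : ∀ d, ∀ᶠ j in atTop, Gd A r j (κ d).supp) (ι : MonoidAlgebra (ZMod 2) H →+* D)
    (hι : ∀ a, κ (ι a) = MN.of a) : Grow ι := by
  intro a c r' M rows hM ε hε
  obtain ⟨G, _, φ, hG, hφ⟩ := exists_emb hC A hB κ hκ ι hι (M.submatrix rows id) hM
  exact Pool.Agent.H20.GR.growth_rows φ hG M rows hφ hε

end

end Pool.Agent.S12
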