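import Pool.Agent.S12.PdII
import Pool.Agent.S12.Fol

/-!
# Project S12: the kernels of the approximations at level one
-/

set_option autoImplicit false
set_option linter.unusedSectionVars false

namespace Pool.Agent.S12

open Pool.Agent.S11

section

variable {H : Type} [Group H] [BO H] {N : ℕ → Subgroup H}

theorem cvx_ker (h0 : N 0 = ⊤) (A : Appr H N) (j : ℕ) : Cvx (A.q j 1).ker := by
  have hpos : ∀ y : H, 1 ≤ y → 1 ≤ A.q j 1 y := by
    intro y hy
    rcases hy.lt_or_eq with h | h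
    · exact A.pos j 0 y (by rw [h0]; exact Subgroup.mem_top y) h
    · rw [← h, map_one]
  intro x hx y h1 h2
  rw [MonoidHom.mem_ker] at hx ⊢
  refine le_antisymm ?_ (hpos y h1)
  have h3 : 1 ≤ x * y⁻¹ := by
    have h4 := mul_le_r h2 y⁻¹
    rwa [mul_inv_cancel] at h4
  have h4 := mul_le_r (hpos _ h3) (A.q j 1 y)
  rw [one_mul, ← map_mul, inv_mul_cancel_right, hx] at h4
  exact h4

theorem fol_ker (A : Appr H N) (j : ℕ) (hB : FBox (A.Γ j 1)) : Fol (H ⧸ (A.q j 1).ker) :=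
  fol_of_box (QuotientGroup.kerLift (A.q j 1)) (QuotientGroup.kerLift_injective _) hB

theorem fine_ker (A : Appr H N) (j : ℕ) {a : MN H} (h : ∀ g, {x | x ∈ a.supp ∧ A.q j 1 x = g}.Finite) :
    Fine (A.q j 1).ker a := by
  intro γ
  obtain ⟨u, rfl⟩ := QuotientGroup.mk_surjective γ
  refine (h (A.q j 1 u)).subset ?_
  rintro x ⟨h1, h2⟩
  refine ⟨h1, ?_⟩
  have h3 : x⁻¹ * u ∈ (A.q j 1).ker := QuotientGroup.eq.1 h2
  rw [MonoidHom.mem_ker, map_mul, map_inv, inv_mul_eq_one] at h3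
  exact h3

end

end Pool.Agent.S12
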