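import Pool.Agent.S12.PdII

/-!
# Project S12: the elements with denominators and fine entries on which `Psi` vanishes
-/

set_option autoImplicit false
set_option linter.unusedSectionVars false

open TensorProduct

namespace Pool.Agent.S12

open Pool.Agent.S11 Pool.Agent.S11.FL

section

variable {H : Type} [Group H] [BO H] (N : Subgroup H) [N.Normal] {X : Type} [AddCommGroup X] [Module (ZMod 2) X]

/-- **The key theorem** -/
theorem key (hN : Cvx N) (ρ : Representation (ZMod 2) H X) (F : Finset (MN H)) (hF : ∀ a ∈ F, Fine N a)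
    {s s' : MN H} (hs0 : s ≠ 0) (hs'0 : s' ≠ 0) (hs : s ∈ SN N) (hs' : s' ∈ SN N) (h1 : ∀ a ∈ F, s * a ∈ SN N)
    (h2 : ∀ b ∈ F, b * s' ∈ SN N) {m : MM (ZMod 2) (MN H) X} (hm : m ∈ TT X (F : Set (MN H)))
    (h0 : Psi ρ m = 0) : m ∈ II (gh H) ρ (⊤ : Subgroup H) := by
  classical
  have hx : Lm s (Rm s' m) ∈ II (gh H) ρ (⊤ : Subgroup H) := by
    -- the cosets
    let A : Finset (H ⧸ N) := F.attach.biUnion fun a => (h1 a.1 a.2 : (cos N (s * a.1)).Finite).toFinset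
    let B : Finset (H ⧸ N) := F.attach.biUnion fun b => (h2 b.1 b.2 : (cos N (b.1 * s')).Finite).toFinset
    have hA : ∀ a ∈ F, cos N (s * a) ⊆ A := fun a ha α hα =>
      Finset.mem_coe.2 (Finset.mem_biUnion.2 ⟨⟨a, ha⟩, Finset.mem_attach _ _, (Set.Finite.mem_toFinset _).2 hα⟩)
    have hB : ∀ b ∈ F, cos N (b * s') ⊆ B := fun b hb α hα =>
      Finset.mem_coe.2 (Finset.mem_biUnion.2 ⟨⟨b, hb⟩, Finset.mem_attach _ _, (Set.Finite.mem_toFinset _).2 hα⟩)
    have hTS : Lm s (Rm s' m) ∈ TS N X A B := by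
      have : TT X (F : Set (MN H)) ≤ (TS N X A B).comap (Lm s ∘ₗ Rm s') := by
        refine Submodule.span_le.2 ?_
        rintro _ ⟨a, x, b, ha, hb, rfl⟩
        refine Submodule.subset_span ⟨s * a, x, b * s', hA a ha, hB b hb, ?_⟩
        rw [LinearMap.comp_apply, Rm_tmul, Lm_tmul]
      exact this hm
    refine mem_of_Pd N hN hTS _ fun γ => ?_
    have hsM : cos N s ⊆ (hs : (cos N s).Finite).toFinset := fun α hα =>
      Finset.mem_coe.2 ((Set.Finite.mem_toFinset _).2 hα)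
    have hsM' : cos N s' ⊆ (hs' : (cos N s').Finite).toFinset := fun α hα =>
      Finset.mem_coe.2 ((Set.Finite.mem_toFinset _).2 hα)
    rw [Pd_Lm N hN _ s hsM]
    refine Submodule.sum_mem _ fun μ _ => Lm_II ρ ⊤ _ ?_
    rw [Pd_Rm N hN _ s' hsM']
    exact Submodule.sum_mem _ fun ν _ => Rm_II ρ ⊤ _ (Pd_II N hN ρ hF hm h0 _)
  have h3 := Rm_II ρ ⊤ s'⁻¹ (Lm_II ρ ⊤ s⁻¹ hx)
  rw [Lm_Lm, inv_mul_cancel₀ hs0, Lm_one, Rm_Rm, mul_inv_cancel₀ hs'0, Rm_one] at h3
  exact h3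

end

end Pool.Agent.S12
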