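import Pool.Agent.S12.Ore
import Pool.Agent.S12.LinD
import Pool.Agent.S12.SN
import Pool.Agent.S12.Fol

/-!
# Project S12: the right Ore condition for the ring `SN N` if the quotient `H ⧸ N` satisfies the Foelner condition
-/

set_option autoImplicit false
set_option linter.unusedSectionVars false

open Pointwise

namespace Pool.Agent.S12.OreR

open Pool.Agent.S11

section

variable {H : Type} [Group H] [BO H] (N : Subgroup H) [N.Normal]

theorem cos_g (x : H) : cos N (MN.g x) ⊆ {(x : H ⧸ N)} := by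
  rintro _ ⟨y, hy, rfl⟩
  have hy' : (MN.g x * 1).c y ≠ 0 := by rw [mul_one]; exact hy
  rw [MN.c_g_mul] at hy'
  by_cases h : x⁻¹ * y = 1
  · rw [inv_mul_eq_one] at h
    rw [h]
    rfl
  · exact absurd (MN.c_one_ne h) hy'

theorem mem_SN_of_DN {d : MN H} (hd : d ∈ DN N) : d ∈ SN N := by
  refine (Set.finite_singleton ((1 : H) : H ⧸ N)).subset ?_
  rintro _ ⟨x, hx, rfl⟩
  rw [Set.mem_singleton_iff, QuotientGroup.mk_one, QuotientGroup.eq_one_iff]
  exact hd x hx

theorem pr_d {d : MN H} (hd : d ∈ DN N) : pr N 1 d = d := by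
  refine MN.ext (funext fun x => ?_)
  by_cases hx : (x : H ⧸ N) = 1
  · rw [pr_c N _ _ _ hx]
  · rw [pr_c_ne N _ _ _ hx]
    by_contra h
    exact hx ((QuotientGroup.eq_one_iff x).2 (hd x fun h' => h h'.symm))

open Classical in
theorem pr_gd {d : MN H} (hd : d ∈ DN N) (x : H) (α : H ⧸ N) :
    pr N α (MN.g x * d) = if α = (x : H ⧸ N) then MN.g x * d else 0 := by
  have h1 : MN.g x * d = pr N (x : H ⧸ N) (MN.g x * d) := by
    have h2 := pr_g_mul N 1 x d
    rw [pr_d N hd, mul_one] at h2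
    exact h2
  rw [h1, pr_pr]
  split_ifs with h
  · rw [h]
  · rfl

theorem pr_mul_sum {ι : Type} [Fintype ι] (u : MN H) (k : ι → H) (v : ι → MN H) (hv : ∀ f, v f ∈ DN N) (γ : H ⧸ N) :
    pr N γ (u * ∑ f, MN.g (k f) * v f) = ∑ f, pr N γ (u * MN.g (k f)) * v f := by
  rw [Finset.mul_sum, map_sum]
  exact Finset.sum_congr rfl fun f _ => by rw [← mul_assoc, pr_mul_d N _ _ (hv f)]

/-- **The right Ore condition** -/
theorem rore_SN (h : Fol (H ⧸ N)) : ROre (SN N) := by
  classical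
  intro u hu t ht ht0
  obtain ⟨rp, hrp⟩ : ∃ rp : H ⧸ N → H, ∀ α, ((rp α : H) : H ⧸ N) = α :=
    (QuotientGroup.mk_surjective (s := N)).hasRightInverse
  have hC : (cos N u ∪ cos N t).Finite := Set.Finite.union hu ht
  obtain ⟨F, G, hFG, hcard⟩ := h.left hC.toFinset
  have hz : ∀ w : MN H, cos N w ⊆ cos N u ∪ cos N t → ∀ f ∈ F, ∀ γ, γ ∉ G → pr N γ (w * MN.g (rp f)) = 0 := by
    intro w hw f hf γ hγ
    refine pr_eq_zero N fun h1 => hγ ?_
    obtain ⟨c, hc, f', hf', rfl⟩ := Set.mem_mul.1 (cos_mul N _ _ h1)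
    have h2 := cos_g N (rp f) hf'
    rw [Set.mem_singleton_iff, hrp] at h2
    rw [h2]
    exact hFG f hf c (hC.mem_toFinset.2 (hw hc))
  have hex : ∀ (w : MN H) (f γ : H ⧸ N), ∃ d : DN N, pr N γ (w * MN.g (rp f)) = MN.g (rp γ) * (d : MN H) := by
    intro w f γ
    obtain ⟨d, hd, e⟩ := pr_eq_g_mul N (rp γ) (w * MN.g (rp f))
    rw [hrp] at e
    exact ⟨⟨d, hd⟩, e⟩
  choose a ha using hex
  obtain ⟨v, hv0, hv⟩ := exists_right (D := DN N) (m := F ⊕ F) (n := G)
    (fun i j => Sum.elim (fun f : F => a u f.1 j.1) (fun f : F => - a t f.1 j.1) i)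
    (by rw [Fintype.card_sum, Fintype.card_coe, Fintype.card_coe]; omega)
  set p : MN H := ∑ f : F, MN.g (rp f.1) * (v (Sum.inl f) : MN H) with hp
  set r : MN H := ∑ f : F, MN.g (rp f.1) * (v (Sum.inr f) : MN H) with hr
  have hcomp : ∀ (w : MN H) (q : F → DN N) (γ : H ⧸ N),
      pr N γ (w * ∑ f : F, MN.g (rp f.1) * (q f : MN H)) = MN.g (rp γ) * ∑ f : F, (a w f.1 γ : MN H) * (q f : MN H) := by
    intro w q γ
    rw [pr_mul_sum N w (fun f : F => rp f.1) (fun f => (q f : MN H)) (fun f => (q f).2) γ, Finset.mul_sum]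
    exact Finset.sum_congr rfl fun f _ => by rw [ha, mul_assoc]
  have hup : u * p = t * r := by
    rw [← sub_eq_zero]
    refine eq_zero_of_pr N fun γ => ?_
    rw [map_sub]
    by_cases hγ : γ ∈ G
    · rw [hp, hr, hcomp u (fun f => v (Sum.inl f)) γ, hcomp t (fun f => v (Sum.inr f)) γ, ← mul_sub]
      have h1 := hv ⟨γ, hγ⟩
      rw [Fintype.sum_sum_type] at h1
      have h2 := congrArg (fun d : DN N => (d : MN H)) h1
      have h3 : (∑ f : F, (a u f.1 γ : MN H) * (v (Sum.inl f) : MN H)) -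
          ∑ f : F, (a t f.1 γ : MN H) * (v (Sum.inr f) : MN H) = 0 := by
        rw [sub_eq_add_neg, ← Finset.sum_neg_distrib]
        refine Eq.trans ?_ h2
        rw [Subfield.coe_add, AddSubmonoidClass.coe_finsetSum, AddSubmonoidClass.coe_finsetSum]
        congr 1
        refine Finset.sum_congr rfl fun f _ => ?_
        rw [← neg_mul]
        rfl
      rw [h3, mul_zero]
    · rw [hp, hr, pr_mul_sum N u (fun f : F => rp f.1) (fun f => (v (Sum.inl f) : MN H)) (fun f => (v (Sum.inl f)).2) γ,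
        pr_mul_sum N t (fun f : F => rp f.1) (fun f => (v (Sum.inr f) : MN H)) (fun f => (v (Sum.inr f)).2) γ]
      rw [Finset.sum_eq_zero fun f _ => ?_, Finset.sum_eq_zero fun f _ => ?_, sub_zero]
      · rw [hz t Set.subset_union_right f.1 f.2 γ hγ, zero_mul]
      · rw [hz u Set.subset_union_left f.1 f.2 γ hγ, zero_mul]
  have hzero : ∀ q : F → DN N, (∑ f : F, MN.g (rp f.1) * (q f : MN H)) = 0 → ∀ f, q f = 0 := by
    intro q hq f
    have h1 := congrArg (pr N f.1) hq
    rw [map_sum, map_zero, Finset.sum_eq_single f] at h1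
    · rw [pr_gd N (q f).2, if_pos (hrp f.1).symm] at h1
      rcases mul_eq_zero.1 h1 with h2 | h2
      · exfalso
        have h3 : MN.g (rp f.1)⁻¹ * MN.g (rp f.1) = (1 : MN H) := by rw [← MN.g_mul, inv_mul_cancel, MN.g_one]
        rw [h2, mul_zero] at h3
        exact one_ne_zero h3.symm
      · exact Subtype.ext h2
    · intro f' _ hf'
      rw [pr_gd N (q f').2, if_neg]
      intro h2
      rw [hrp] at h2
      exact hf' (Subtype.ext h2.symm)
    · intro h2
      exact absurd (Finset.mem_univ f) h2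
  have hmem : ∀ q : F → DN N, (∑ f : F, MN.g (rp f.1) * (q f : MN H)) ∈ SN N := fun q =>
    (SN N).sum_mem fun f _ => (SN N).mul_mem (g_mem_SN N _) (mem_SN_of_DN N (q f).2)
  refine ⟨p, hmem fun f => v (Sum.inl f), r, hmem fun f => v (Sum.inr f), fun hp0 => hv0 ?_, hup⟩
  rw [hp0, mul_zero] at hup
  have hr0 : r = 0 := (mul_eq_zero.1 hup.symm).resolve_left ht0
  funext i
  rcases i with f | f
  · exact hzero (fun f => v (Sum.inl f)) hp0 f
  · exact hzero (fun f => v (Sum.inr f)) hr0 f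

end

end Pool.Agent.S12.OreR
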