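import Pool.Agent.S12.Chain0
import Pool.Agent.S11.StO
import Pool.Agent.S11.StC
import Pool.Agent.S12.GdC
import Pool.Agent.S12.GdN

/-!
# Project S12, block STAR: the division ring `DS` with the anti-automorphism `dst`
-/

set_option autoImplicit false
set_option linter.unusedSectionVars false

open Filter

namespace Pool.Agent.S12

open Pool.Agent.S11

section

variable {H : Type} [Group H] [BO H] {r : ℕ} {N : ℕ → Subgroup H}

theorem stData_of_box {Γ : Type} [Group Γ] [BO Γ] (hB : FBox Γ) :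
    StData (MN.of : MonoidAlgebra (ZMod 2) Γ →+* MN Γ) stA where
  inj := MN.of_injective
  add := stA_add
  mul := stA_mul
  one := stA_one
  inv := stA_stA
  ore := fun a a' ha ha' => ore_of_box hB a a' ha ha'

theorem pData (hC : Chain0 H r N) (A : Appr H N) (hB : ∀ j, FBox (A.Γ j r)) :
    PData (VP hC A) (fun j => (MN.of : MonoidAlgebra (ZMod 2) (A.Γ j r) →+* MN (A.Γ j r))) (fun _ => stA)
      (fun j => psh A r j) where
  st := fun j => stData_of_box (hB j)
  one := Eventually.of_forall fun j => psh_one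
  add := fun v hv w hw => by
    filter_upwards [mem_VP.1 hv, mem_VP.1 hw] with j h1 h2
    exact psh_add hC h1 h2
  mul := fun v hv w hw => by
    filter_upwards [mem_VP.1 hv, mem_VP.1 hw] with j h1 h2
    exact psh_mul hC h1 h2
  ne := fun v hv h0 => psh_ne_zero hC A hv h0

/-- the division ring -/
noncomputable def DS (hC : Chain0 H r N) (A : Appr H N) (hB : ∀ j, FBox (A.Γ j r)) : Subfield (MN H) :=
  (pData hC A hB).DD

theorem DS_le (hC : Chain0 H r N) (A : Appr H N) (hB : ∀ j, FBox (A.Γ j r)) : DS hC A hB ≤ VP hC A :=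
  (pData hC A hB).DD_le

/-- the anti-automorphism -/
noncomputable def star (hC : Chain0 H r N) (A : Appr H N) (hB : ∀ j, FBox (A.Γ j r)) (v : DS hC A hB) : DS hC A hB :=
  (pData hC A hB).dst v

theorem star_add (hC : Chain0 H r N) (A : Appr H N) (hB : ∀ j, FBox (A.Γ j r)) (v w : DS hC A hB) :
    star hC A hB (v + w) = star hC A hB v + star hC A hB w := (pData hC A hB).dst_add v w

theorem star_mul (hC : Chain0 H r N) (A : Appr H N) (hB : ∀ j, FBox (A.Γ j r)) (v w : DS hC A hB) :
    star hC A hB (v * w) = star hC A hB w * star hC A hB v := (pData hC A hB).dst_mul v w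

theorem star_star (hC : Chain0 H r N) (A : Appr H N) (hB : ∀ j, FBox (A.Γ j r)) (v : DS hC A hB) :
    star hC A hB (star hC A hB v) = v := (pData hC A hB).dst_dst v

theorem rel_of (hC : Chain0 H r N) (A : Appr H N) (hB : ∀ j, FBox (A.Γ j r)) (a : MonoidAlgebra (ZMod 2) H) :
    PData.Rel (fun j => (MN.of : MonoidAlgebra (ZMod 2) (A.Γ j r) →+* MN (A.Γ j r))) (fun _ => stA)
      (fun j => psh A r j) (MN.of a) (MN.of (stA a)) :=
  Eventually.of_forall fun j => by
    show St _ _ (psh A r j (MN.of a)) (psh A r j (MN.of (stA a)))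
    rw [psh_of, psh_of, stA_map]
    exact (stData_of_box (hB j)).st_of _

theorem of_mem_DS (hC : Chain0 H r N) (A : Appr H N) (hB : ∀ j, FBox (A.Γ j r)) (a : MonoidAlgebra (ZMod 2) H) :
    MN.of a ∈ DS hC A hB :=
  ⟨of_mem_VP hC A a, MN.of (stA a), of_mem_VP hC A _, rel_of hC A hB a⟩

/-- the homomorphism of the group algebra into the division ring -/
noncomputable def ιD (hC : Chain0 H r N) (A : Appr H N) (hB : ∀ j, FBox (A.Γ j r)) :
    MonoidAlgebra (ZMod 2) H →+* DS hC A hB :=
  (MN.of : MonoidAlgebra (ZMod 2) H →+* MN H).codRestrict (DS hC A hB) (of_mem_DS hC A hB)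

theorem coe_ιD (hC : Chain0 H r N) (A : Appr H N) (hB : ∀ j, FBox (A.Γ j r)) (a : MonoidAlgebra (ZMod 2) H) :
    (ιD hC A hB a : MN H) = MN.of a := rfl

theorem star_of (hC : Chain0 H r N) (A : Appr H N) (hB : ∀ j, FBox (A.Γ j r)) (a : MonoidAlgebra (ZMod 2) H) :
    star hC A hB (ιD hC A hB a) = ιD hC A hB (stA a) :=
  Subtype.ext ((pData hC A hB).dst_eq _ (of_mem_VP hC A _) (rel_of hC A hB a))

theorem star_g (hC : Chain0 H r N) (A : Appr H N) (hB : ∀ j, FBox (A.Γ j r)) (g : H) :
    star hC A hB (ιD hC A hB (MonoidAlgebra.single g 1)) = ιD hC A hB (MonoidAlgebra.single g⁻¹ 1) := by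
  rw [star_of, stA_single]

end

end Pool.Agent.S12
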