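import Pool.Agent.S12.DE
import Pool.Agent.S12.Ker
import Pool.Agent.S12.StE
import Pool.Agent.S12.GwA
import Pool.Agent.S12.Appr1

/-!
# Project S12: the division ring of a countable residually unitriangular group
-/

set_option autoImplicit false
set_option linter.unusedSectionVars false

open Filter

namespace Pool.Agent.S12

open Pool.Agent.S11

/-- the package from the approximations -/
theorem exists_dpack1 {H : Type} [Group H] [BO H] {N : ℕ → Subgroup H} (hC : Chain0 H 1 N) (A : Appr H N)
    (hB : ∀ j, FBox (A.Γ j 1)) : Nonempty (DPack H) := by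
  refine exists_dpack_of (iD hC A hB) (ιT hC A hB) (iD_ιT hC A hB) (star hC A hB) (star_add hC A hB)
    (star_mul hC A hB) (star_star hC A hB) (star_of hC A hB) (fun F => ?_) fun D _ _ κ ι h => ?_
  · have h1 : ∀ᶠ j in atTop, ∀ a ∈ F, Gd A 1 j (iD hC A hB a).supp :=
      (Filter.eventually_all_finset F).2 fun a _ => mem_VP.1 (iD_mem_VP hC A hB a)
    obtain ⟨j, hj⟩ := h1.exists
    exact ⟨(A.q j 1).ker, inferInstance, cvx_ker hC.zero A j, fol_ker A j (hB j),
      fun a ha => fine_ker A j fun g => (hj a ha).fin_fibre hC g⟩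
  · refine grow_of hC A hB ((iD hC A hB).comp κ) (fun d => mem_VP.1 (iD_mem_VP hC A hB (κ d))) ι fun a => ?_
    rw [RingHom.comp_apply, h, iD_ιT]

/-- **The division ring** -/
theorem RUT.exists_dpack {H : Type} [Group H] [Countable H] (h : RUT H) : Nonempty (DPack H) := by
  obtain ⟨bo, N, hC, A, hB⟩ := h.exists_appr
  exact exists_dpack1 hC A hB

end Pool.Agent.S12
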