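import Pool.Agent.S12.SN
import Pool.Agent.S11.FL.Inst

/-!
# Project S12: the operators `Pd N δ`

`comp (pr N) α β` (FL/Grade) is the component `(α, β)` of `m ∈ V ⊗ (X ⊗ V)`; `Pd N δ m = ∑ α, comp (pr N) α (α⁻¹ δ) m` (a finite sum,
`N` convex).  `Lm s`, `Rm s` = multiplication by `s` on the first factor from the left, on the last factor from the right.

PROOFS.  `fin_comp`: induction on `m` (zero, sums, pure tensors: `TensorProduct.induction_on` twice), for the pure tensors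
`grading_MN N hN`.fin with `α := 1`, or `fin_cosets` (CstC).  `comp_Lm`, `comp_Rm`: `MM_ext`-type equality of linear maps, `pr_mul_left`,
`pr_mul_right`.  `Pd_Lm`: `finsum_congr` with `comp_Lm`, exchange (`finsum_sum_comm` or `finsum_add_distrib` by induction over `M`), shift
`α = μ α'` (`finsum_comp_equiv (Equiv.mulLeft μ)`), and `Lm` commutes with the finite sum (`AddMonoidHom.map_finsum`).
`mem_of_Pd`: for `x ∈ TS N A B` one has `x = ∑ α ∈ A, ∑ β ∈ B, comp (pr N) α β x` and `comp (pr N) α β x = 0` unless `α ∈ A`, `β ∈ B`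
(span induction); so `x = ∑ γ ∈ A * B, Pd N γ x`.
-/

set_option autoImplicit false
set_option linter.unusedSectionVars false

open TensorProduct

namespace Pool.Agent.S12

open Pool.Agent.S11 Pool.Agent.S11.FL

section

variable {H : Type} [Group H] [BO H] (N : Subgroup H) [N.Normal] {X : Type} [AddCommGroup X] [Module (ZMod 2) X]

/-- the multiplication on the first factor -/
noncomputable def Lm (s : MN H) : MM (ZMod 2) (MN H) X →ₗ[ZMod 2] MM (ZMod 2) (MN H) X :=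
  (LinearMap.mulLeft (ZMod 2) s).rTensor (X ⊗[ZMod 2] MN H)

/-- the multiplication on the last factor -/
noncomputable def Rm (s : MN H) : MM (ZMod 2) (MN H) X →ₗ[ZMod 2] MM (ZMod 2) (MN H) X :=
  TensorProduct.map (LinearMap.id : MN H →ₗ[ZMod 2] MN H)
      (TensorProduct.map (LinearMap.id : X →ₗ[ZMod 2] X) (LinearMap.mulRight (ZMod 2) s))

theorem Lm_tmul (s a : MN H) (x : X) (b : MN H) :
    Lm s (a ⊗ₜ[ZMod 2] (x ⊗ₜ[ZMod 2] b)) = (s * a) ⊗ₜ[ZMod 2] (x ⊗ₜ[ZMod 2] b) := rfl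

theorem Rm_tmul (s a : MN H) (x : X) (b : MN H) :
    Rm s (a ⊗ₜ[ZMod 2] (x ⊗ₜ[ZMod 2] b)) = a ⊗ₜ[ZMod 2] (x ⊗ₜ[ZMod 2] (b * s)) := rfl

theorem Lm_II (ρ : Representation (ZMod 2) H X) (J : Subgroup H) (s : MN H) {m : MM (ZMod 2) (MN H) X}
    (hm : m ∈ II (gh H) ρ J) : Lm s m ∈ II (gh H) ρ J := mulLeft_II (j := gh H) ρ J s hm

theorem Rm_II (ρ : Representation (ZMod 2) H X) (J : Subgroup H) (s : MN H) {m : MM (ZMod 2) (MN H) X}
    (hm : m ∈ II (gh H) ρ J) : Rm s m ∈ II (gh H) ρ J := mulRight_II (j := gh H) ρ J s hm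

theorem Lm_Lm (s t : MN H) (m : MM (ZMod 2) (MN H) X) : Lm s (Lm t m) = Lm (s * t) m := by
  have : Lm s ∘ₗ Lm t = Lm (X := X) (s * t) := MM_ext fun a x b => by
    rw [LinearMap.comp_apply, Lm_tmul, Lm_tmul, Lm_tmul, mul_assoc]
  exact LinearMap.congr_fun this m

theorem Rm_Rm (s t : MN H) (m : MM (ZMod 2) (MN H) X) : Rm s (Rm t m) = Rm (t * s) m := by
  have : Rm s ∘ₗ Rm t = Rm (X := X) (t * s) := MM_ext fun a x b => by
    rw [LinearMap.comp_apply, Rm_tmul, Rm_tmul, Rm_tmul, mul_assoc]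
  exact LinearMap.congr_fun this m

theorem Lm_one (m : MM (ZMod 2) (MN H) X) : Lm 1 m = m := by
  have : Lm 1 = (LinearMap.id : MM (ZMod 2) (MN H) X →ₗ[ZMod 2] _) := MM_ext fun a x b => by
    rw [Lm_tmul, one_mul, LinearMap.id_apply]
  exact LinearMap.congr_fun this m

theorem Rm_one (m : MM (ZMod 2) (MN H) X) : Rm 1 m = m := by
  have : Rm 1 = (LinearMap.id : MM (ZMod 2) (MN H) X →ₗ[ZMod 2] _) := MM_ext fun a x b => by
    rw [Rm_tmul, mul_one, LinearMap.id_apply]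
  exact LinearMap.congr_fun this m

theorem Lm_Rm (s t : MN H) (m : MM (ZMod 2) (MN H) X) : Lm s (Rm t m) = Rm t (Lm s m) := by
  have : Lm s ∘ₗ Rm t = Rm t ∘ₗ Lm (X := X) s := MM_ext fun a x b => by
    rw [LinearMap.comp_apply, LinearMap.comp_apply, Lm_tmul, Rm_tmul, Rm_tmul, Lm_tmul]
  exact LinearMap.congr_fun this m

/-- finitely many components -/
theorem fin_comp (hN : Cvx N) (δ : H ⧸ N) (m : MM (ZMod 2) (MN H) X) :
    (Function.support fun α : H ⧸ N => comp (pr N) α (α⁻¹ * δ) m).Finite := by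
  have hadd : ∀ m m' : MM (ZMod 2) (MN H) X,
      (Function.support fun α : H ⧸ N => comp (pr N) α (α⁻¹ * δ) m).Finite →
      (Function.support fun α : H ⧸ N => comp (pr N) α (α⁻¹ * δ) m').Finite →
      (Function.support fun α : H ⧸ N => comp (pr N) α (α⁻¹ * δ) (m + m')).Finite := by
    intro m m' h h'
    refine (h.union h').subset fun α hα => ?_
    by_contra hcon
    rw [Set.mem_union, not_or, Function.mem_support, Function.mem_support, not_not, not_not]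
      at hcon
    exact hα (by
      change comp (pr N) α (α⁻¹ * δ) (m + m') = 0
      rw [map_add, hcon.1, hcon.2, add_zero])
  have h0 : (Function.support fun α : H ⧸ N =>
      comp (pr N) α (α⁻¹ * δ) (0 : MM (ZMod 2) (MN H) X)).Finite := by
    refine Set.finite_empty.subset fun α hα => hα ?_
    exact map_zero _
  induction m using TensorProduct.induction_on with
  | zero => exact h0
  | add s t hs ht => exact hadd s t hs ht
  | tmul a t =>
    induction t with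
    | zero => rw [TensorProduct.tmul_zero]; exact h0
    | add s t hs ht => rw [TensorProduct.tmul_add]; exact hadd _ _ hs ht
    | tmul x b =>
      refine ((grading_MN N hN).fin a b 1 δ).subset fun α hα => ?_
      refine ⟨fun h1 => hα ?_, fun h1 => hα ?_⟩
      · change comp (pr N) α (α⁻¹ * δ) (a ⊗ₜ[ZMod 2] (x ⊗ₜ[ZMod 2] b)) = 0
        rw [one_mul] at h1
        rw [comp_tmul, h1, TensorProduct.zero_tmul]
      · change comp (pr N) α (α⁻¹ * δ) (a ⊗ₜ[ZMod 2] (x ⊗ₜ[ZMod 2] b)) = 0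
        rw [comp_tmul, h1, TensorProduct.tmul_zero, TensorProduct.tmul_zero]

/-- the operator -/
noncomputable def Pd (δ : H ⧸ N) (m : MM (ZMod 2) (MN H) X) : MM (ZMod 2) (MN H) X :=
  ∑ᶠ α : H ⧸ N, comp (pr N) α (α⁻¹ * δ) m

theorem Pd_add (hN : Cvx N) (δ : H ⧸ N) (m m' : MM (ZMod 2) (MN H) X) :
    Pd N δ (m + m') = Pd N δ m + Pd N δ m' := by
  unfold Pd
  rw [← finsum_add_distrib (fin_comp N hN δ m) (fin_comp N hN δ m')]
  exact finsum_congr fun α => map_add _ _ _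

theorem Pd_zero (δ : H ⧸ N) : Pd N δ (0 : MM (ZMod 2) (MN H) X) = 0 := by
  unfold Pd
  exact finsum_eq_zero_of_forall_eq_zero fun α => map_zero _

theorem comp_Lm (M : Finset (H ⧸ N)) (s : MN H) (h : cos N s ⊆ M) (α β : H ⧸ N) (m : MM (ZMod 2) (MN H) X) :
    comp (pr N) α β (Lm s m) = ∑ μ ∈ M, Lm (pr N μ s) (comp (pr N) (μ⁻¹ * α) β m) := by
  have : comp (pr N) α β ∘ₗ Lm (X := X) s =
      ∑ μ ∈ M, Lm (pr N μ s) ∘ₗ comp (pr N) (μ⁻¹ * α) β := MM_ext fun a x b => by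
    rw [LinearMap.comp_apply, Lm_tmul, comp_tmul, pr_mul_left N M s h, TensorProduct.sum_tmul,
      LinearMap.sum_apply]
    exact Finset.sum_congr rfl fun μ _ => by
      rw [LinearMap.comp_apply, comp_tmul, Lm_tmul]
  have h2 := LinearMap.congr_fun this m
  rw [LinearMap.sum_apply] at h2
  exact h2

theorem comp_Rm (M : Finset (H ⧸ N)) (s : MN H) (h : cos N s ⊆ M) (α β : H ⧸ N) (m : MM (ZMod 2) (MN H) X) :
    comp (pr N) α β (Rm s m) = ∑ ν ∈ M, Rm (pr N ν s) (comp (pr N) α (β * ν⁻¹) m) := by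
  have : comp (pr N) α β ∘ₗ Rm (X := X) s =
      ∑ ν ∈ M, Rm (pr N ν s) ∘ₗ comp (pr N) α (β * ν⁻¹) := MM_ext fun a x b => by
    rw [LinearMap.comp_apply, Rm_tmul, comp_tmul, pr_mul_right N M s h, TensorProduct.tmul_sum,
      TensorProduct.tmul_sum, LinearMap.sum_apply]
    exact Finset.sum_congr rfl fun ν _ => by
      rw [LinearMap.comp_apply, comp_tmul, Rm_tmul]
  have h2 := LinearMap.congr_fun this m
  rw [LinearMap.sum_apply] at h2
  exact h2

private theorem Lm_Pd (hN : Cvx N) (s : MN H) (δ : H ⧸ N) (m : MM (ZMod 2) (MN H) X) :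
    Lm s (Pd N δ m) = ∑ᶠ α : H ⧸ N, Lm s (comp (pr N) α (α⁻¹ * δ) m) :=
  AddMonoidHom.map_finsum (Lm s).toAddMonoidHom (fin_comp N hN δ m)

private theorem Rm_Pd (hN : Cvx N) (s : MN H) (δ : H ⧸ N) (m : MM (ZMod 2) (MN H) X) :
    Rm s (Pd N δ m) = ∑ᶠ α : H ⧸ N, Rm s (comp (pr N) α (α⁻¹ * δ) m) :=
  AddMonoidHom.map_finsum (Rm s).toAddMonoidHom (fin_comp N hN δ m)

private theorem fin_Lm (hN : Cvx N) (s : MN H) (δ : H ⧸ N) (m : MM (ZMod 2) (MN H) X) :
    (Function.support fun α : H ⧸ N => Lm s (comp (pr N) α (α⁻¹ * δ) m)).Finite := by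
  refine (fin_comp N hN δ m).subset fun α hα h0 => hα ?_
  change Lm s (comp (pr N) α (α⁻¹ * δ) m) = 0
  change comp (pr N) α (α⁻¹ * δ) m = 0 at h0
  rw [h0, map_zero]

private theorem fin_Rm (hN : Cvx N) (s : MN H) (δ : H ⧸ N) (m : MM (ZMod 2) (MN H) X) :
    (Function.support fun α : H ⧸ N => Rm s (comp (pr N) α (α⁻¹ * δ) m)).Finite := by
  refine (fin_comp N hN δ m).subset fun α hα h0 => hα ?_
  change Rm s (comp (pr N) α (α⁻¹ * δ) m) = 0
  change comp (pr N) α (α⁻¹ * δ) m = 0 at h0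
  rw [h0, map_zero]

theorem Pd_Lm (hN : Cvx N) (M : Finset (H ⧸ N)) (s : MN H) (h : cos N s ⊆ M) (γ : H ⧸ N)
    (m : MM (ZMod 2) (MN H) X) : Pd N γ (Lm s m) = ∑ μ ∈ M, Lm (pr N μ s) (Pd N (μ⁻¹ * γ) m) := by
  have h1 : ∀ μ : H ⧸ N, Lm (pr N μ s) (Pd N (μ⁻¹ * γ) m) =
      ∑ᶠ α : H ⧸ N, Lm (pr N μ s) (comp (pr N) (μ⁻¹ * α) (α⁻¹ * γ) m) := by
    intro μ
    rw [Lm_Pd N hN]
    symm
    refine finsum_eq_of_bijective (fun α : H ⧸ N => μ⁻¹ * α) (Group.mulLeft_bijective μ⁻¹)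
      fun α => ?_
    congr 2
    group
  have hfin : ∀ μ : H ⧸ N, (Function.support fun α : H ⧸ N =>
      Lm (pr N μ s) (comp (pr N) (μ⁻¹ * α) (α⁻¹ * γ) m)).Finite := by
    intro μ
    refine ((fin_Lm N hN (pr N μ s) (μ⁻¹ * γ) m).preimage (f := fun α : H ⧸ N => μ⁻¹ * α)
      (mul_right_injective μ⁻¹).injOn).subset fun α hα => ?_
    intro h0
    apply hα
    change Lm (pr N μ s) (comp (pr N) (μ⁻¹ * α) ((μ⁻¹ * α)⁻¹ * (μ⁻¹ * γ)) m) = 0 at h0
    have e : (μ⁻¹ * α)⁻¹ * (μ⁻¹ * γ) = α⁻¹ * γ := by group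
    rw [e] at h0
    exact h0
  simp_rw [h1]
  rw [← finsum_sum_comm M _ fun μ _ => hfin μ]
  exact finsum_congr fun α => comp_Lm N M s h α (α⁻¹ * γ) m

theorem Pd_Rm (hN : Cvx N) (M : Finset (H ⧸ N)) (s : MN H) (h : cos N s ⊆ M) (γ : H ⧸ N)
    (m : MM (ZMod 2) (MN H) X) : Pd N γ (Rm s m) = ∑ ν ∈ M, Rm (pr N ν s) (Pd N (γ * ν⁻¹) m) := by
  have h1 : ∀ ν : H ⧸ N, Rm (pr N ν s) (Pd N (γ * ν⁻¹) m) =
      ∑ᶠ α : H ⧸ N, Rm (pr N ν s) (comp (pr N) α (α⁻¹ * (γ * ν⁻¹)) m) := fun ν =>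
    Rm_Pd N hN _ _ m
  simp_rw [h1]
  rw [← finsum_sum_comm M _ fun ν _ => fin_Rm N hN (pr N ν s) (γ * ν⁻¹) m]
  refine finsum_congr fun α => ?_
  rw [comp_Rm N M s h α (α⁻¹ * γ) m]
  exact Finset.sum_congr rfl fun ν _ => by rw [mul_assoc]

variable (X) in
/-- the span of the pure tensors with entries which meet only the cosets in `A`, `B` -/
noncomputable def TS (A B : Finset (H ⧸ N)) : Submodule (ZMod 2) (MM (ZMod 2) (MN H) X) :=
  Submodule.span (ZMod 2) {z | ∃ (a : MN H) (x : X) (b : MN H), cos N a ⊆ A ∧ cos N b ⊆ B ∧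
    z = a ⊗ₜ[ZMod 2] (x ⊗ₜ[ZMod 2] b)}

/-- **Recomposition** -/
theorem mem_of_Pd (hN : Cvx N) {A B : Finset (H ⧸ N)} {x : MM (ZMod 2) (MN H) X} (hx : x ∈ TS N X A B)
    (L : Submodule (ZMod 2) (MM (ZMod 2) (MN H) X)) (h : ∀ γ, Pd N γ x ∈ L) : x ∈ L := by
  classical
  have key : ∑ γ ∈ (A ×ˢ B).image (fun p => p.1 * p.2), Pd N γ x = x := by
    clear h
    induction hx using Submodule.span_induction with
    | zero =>
      refine Finset.sum_eq_zero fun γ _ => Pd_zero N γ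
    | add y z _ _ hy hz =>
      simp_rw [Pd_add N hN]
      rw [Finset.sum_add_distrib, hy, hz]
    | smul k y _ hy =>
      have hk : ∀ γ, Pd N γ (k • y) = k • Pd N γ y := by
        intro γ
        unfold Pd
        rw [smul_finsum]
        exact finsum_congr fun α => map_smul _ _ _
      simp_rw [hk]
      rw [← Finset.smul_sum, hy]
    | mem z hz =>
      obtain ⟨a, x, b, ha, hb, rfl⟩ := hz
      have h1 : ∀ γ : H ⧸ N, Pd N γ (a ⊗ₜ[ZMod 2] (x ⊗ₜ[ZMod 2] b)) =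
          ∑ α ∈ A, pr N α a ⊗ₜ[ZMod 2] (x ⊗ₜ[ZMod 2] pr N (α⁻¹ * γ) b) := by
        intro γ
        refine finsum_eq_sum_of_support_subset _ fun α hα => ?_
        by_contra h2
        apply hα
        change comp (pr N) α (α⁻¹ * γ) (a ⊗ₜ[ZMod 2] (x ⊗ₜ[ZMod 2] b)) = 0
        rw [comp_tmul, pr_eq_zero N fun h3 => h2 (ha h3), TensorProduct.zero_tmul]
      simp_rw [h1]
      rw [Finset.sum_comm]
      have h2 : ∀ α ∈ A, ∑ γ ∈ (A ×ˢ B).image (fun p => p.1 * p.2),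
          pr N α a ⊗ₜ[ZMod 2] (x ⊗ₜ[ZMod 2] pr N (α⁻¹ * γ) b) =
          pr N α a ⊗ₜ[ZMod 2] (x ⊗ₜ[ZMod 2] b) := by
        intro α hα
        rw [← TensorProduct.tmul_sum, ← TensorProduct.tmul_sum]
        congr 2
        have h3 := sum_pr N (((A ×ˢ B).image fun p => p.1 * p.2).image fun γ => α⁻¹ * γ) b (by
          intro β hβ
          rw [Finset.coe_image]
          refine ⟨α * β, Finset.mem_image.2 ⟨(α, β), ?_, rfl⟩, inv_mul_cancel_left α β⟩
          exact Finset.mem_product.2 ⟨hα, hb hβ⟩)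
        rw [Finset.sum_image fun γ _ γ' _ h => mul_left_cancel h] at h3
        exact h3
      rw [Finset.sum_congr rfl h2, ← TensorProduct.sum_tmul, sum_pr N A a ha]
  rw [← key]
  exact Submodule.sum_mem _ fun γ _ => h γ

end

end Pool.Agent.S12
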