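import Pool.Agent.S11.FL.Inst

/-!
# Project S12: the invariant `Psi` with values in the functions from `H` to `X`

`Psi ρ (a ⊗ x ⊗ b) u = ∑ h, a(h) b(h⁻¹ u) ρ h x`.
-/

set_option autoImplicit false
set_option linter.unusedSectionVars false

open TensorProduct

namespace Pool.Agent.S12

open Pool.Agent.S11 Pool.Agent.S11.FL

section

variable {H : Type} [Group H] [BO H] {X : Type} [AddCommGroup X] [Module (ZMod 2) X]
  (ρ : Representation (ZMod 2) H X)

theorem psi_fin (a b : MN H) (x : X) (u : H) :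
    (Function.support fun h : H => (a.c h * b.c (h⁻¹ * u)) • ρ h x).Finite := by
  refine (MN.mul_fin a b u).subset fun h hh => ?_
  intro h0
  apply hh
  change (a.c h * b.c (h⁻¹ * u)) • ρ h x = 0
  rw [h0, zero_smul]

/-- the bilinear map -/
noncomputable def psiB (a : MN H) : X →ₗ[ZMod 2] MN H →ₗ[ZMod 2] (H → X) :=
  LinearMap.mk₂ (ZMod 2) (fun x b u => ∑ᶠ h : H, (a.c h * b.c (h⁻¹ * u)) • ρ h x)
    (fun x y b => by
      funext u
      change _ = (∑ᶠ h : H, (a.c h * b.c (h⁻¹ * u)) • ρ h x) + ∑ᶠ h : H, (a.c h * b.c (h⁻¹ * u)) • ρ h y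
      rw [← finsum_add_distrib (psi_fin ρ a b x u) (psi_fin ρ a b y u)]
      exact finsum_congr fun h => by rw [map_add, smul_add])
    (fun k x b => by
      funext u
      change _ = k • ∑ᶠ h : H, (a.c h * b.c (h⁻¹ * u)) • ρ h x
      rw [smul_finsum]
      exact finsum_congr fun h => by rw [map_smul, smul_comm])
    (fun x b b' => by
      funext u
      change _ = (∑ᶠ h : H, (a.c h * b.c (h⁻¹ * u)) • ρ h x) + ∑ᶠ h : H, (a.c h * b'.c (h⁻¹ * u)) • ρ h x
      rw [← finsum_add_distrib (psi_fin ρ a b x u) (psi_fin ρ a b' x u)]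
      exact finsum_congr fun h => by rw [MN.c_add, mul_add, add_smul])
    (fun k x b => by
      funext u
      change _ = k • ∑ᶠ h : H, (a.c h * b.c (h⁻¹ * u)) • ρ h x
      rw [smul_finsum]
      exact finsum_congr fun h => by rw [MN.c_smul, mul_left_comm, mul_smul])

/-- **The invariant** -/
noncomputable def Psi : MM (ZMod 2) (MN H) X →ₗ[ZMod 2] (H → X) :=
  TensorProduct.lift
    { toFun := fun a => TensorProduct.lift (psiB ρ a)
      map_add' := fun a a' => TensorProduct.ext' fun x b => by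
        rw [LinearMap.add_apply, TensorProduct.lift.tmul, TensorProduct.lift.tmul, TensorProduct.lift.tmul]
        funext u
        change _ = (∑ᶠ h : H, (a.c h * b.c (h⁻¹ * u)) • ρ h x) + ∑ᶠ h : H, (a'.c h * b.c (h⁻¹ * u)) • ρ h x
        rw [← finsum_add_distrib (psi_fin ρ a b x u) (psi_fin ρ a' b x u)]
        exact finsum_congr fun h => by rw [MN.c_add, add_mul, add_smul]
      map_smul' := fun k a => TensorProduct.ext' fun x b => by
        rw [LinearMap.smul_apply, TensorProduct.lift.tmul, TensorProduct.lift.tmul]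
        funext u
        change _ = k • ∑ᶠ h : H, (a.c h * b.c (h⁻¹ * u)) • ρ h x
        rw [smul_finsum]
        exact finsum_congr fun h => by rw [MN.c_smul, mul_assoc, mul_smul] }

theorem Psi_tmul (a : MN H) (x : X) (b : MN H) (u : H) :
    Psi ρ (a ⊗ₜ[ZMod 2] (x ⊗ₜ[ZMod 2] b)) u = ∑ᶠ h : H, (a.c h * b.c (h⁻¹ * u)) • ρ h x := rfl

/-- it is invariant -/
theorem Psi_act (g : H) (m : MM (ZMod 2) (MN H) X) : Psi ρ (act (gh H) ρ g m) = Psi ρ m := by
  have : Psi ρ ∘ₗ act (gh H) ρ g = Psi ρ := MM_ext fun a x b => by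
    rw [LinearMap.comp_apply, act_tmul]
    funext u
    rw [Psi_tmul, Psi_tmul]
    refine finsum_eq_of_bijective (fun h : H => h * g) (Group.mulRight_bijective g) fun h => ?_
    rw [gh_apply, gh_apply, MN.c_mul_g, MN.c_g_mul, inv_inv, map_mul]
    congr 2
    rw [mul_inv_rev, mul_assoc]
  exact LinearMap.congr_fun this m

theorem Psi_II {N : Subgroup H} {m : MM (ZMod 2) (MN H) X} (hm : m ∈ II (gh H) ρ N) : Psi ρ m = 0 := by
  have : II (gh H) ρ N ≤ LinearMap.ker (Psi ρ) := II_le (gh H) ρ fun g _ m => by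
    rw [LinearMap.mem_ker, map_sub, Psi_act, sub_self]
  exact this hm

/-- it is natural -/
theorem Psi_map {X' : Type} [AddCommGroup X'] [Module (ZMod 2) X'] (ρ' : Representation (ZMod 2) H X')
    (i : X →ₗ[ZMod 2] X') (hi : ∀ g x, i (ρ g x) = ρ' g (i x)) (m : MM (ZMod 2) (MN H) X) (u : H) :
    Psi ρ' (mapX (MN H) i m) u = i (Psi ρ m u) := by
  have : Psi ρ' ∘ₗ mapX (MN H) i = (i.compLeft H) ∘ₗ Psi ρ := MM_ext fun a x b => by
    rw [LinearMap.comp_apply, mapX_tmul]
    funext u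
    change _ = i (Psi ρ (a ⊗ₜ[ZMod 2] (x ⊗ₜ[ZMod 2] b)) u)
    rw [Psi_tmul, Psi_tmul]
    rw [show i (∑ᶠ h : H, (a.c h * b.c (h⁻¹ * u)) • ρ h x) = ∑ᶠ h : H, i ((a.c h * b.c (h⁻¹ * u)) • ρ h x) from
      i.toAddMonoidHom.map_finsum (psi_fin ρ a b x u)]
    exact finsum_congr fun h => by rw [map_smul, hi]
  exact congrFun (LinearMap.congr_fun this m) u

end

end Pool.Agent.S12
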