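import Pool.Agent.S12.Pd
import Pool.Agent.S12.Psi

/-!
# Project S12: `Pd N δ m ∈ II` if the entries of `m` have finite fibres and `Psi ρ m = 0`

`Psi_Pd`: `Psi ρ (Pd N δ m)` is the part of `Psi ρ m` on the coset `δ`.  `mem_II_of_Psi`: a sum of tensors `g h ⊗ x ⊗ g k` is in
`II` if its invariant vanishes (modulo `II` it is `∑_u 1 ⊗ Psi(u) ⊗ g u`).  For fine entries `Pd N δ m` is such a sum.
-/

set_option autoImplicit false
set_option linter.unusedSectionVars false

open TensorProduct

namespace Pool.Agent.S12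

open Pool.Agent.S11 Pool.Agent.S11.FL

section

variable {H : Type} [Group H] [BO H] (N : Subgroup H) [N.Normal] {X : Type} [AddCommGroup X] [Module (ZMod 2) X]

theorem c_gg_self (h : H) : (MN.g h : MN H).c h = 1 := by
  have h1 := MN.c_g_mul h (1 : MN H) h
  rw [mul_one, inv_mul_cancel] at h1
  rw [h1]
  exact MN.c_one_self

theorem c_gg_ne {h x : H} (hx : x ≠ h) : (MN.g h : MN H).c x = 0 := by
  have h1 := MN.c_g_mul h (1 : MN H) x
  rw [mul_one] at h1
  rw [h1]
  exact MN.c_one_ne fun h2 => hx (inv_mul_eq_one.1 h2).symm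

/-- the value of the invariant on the elements of the group -/
theorem Psi_gg [DecidableEq H] (ρ : Representation (ZMod 2) H X) (h : H) (x : X) (k : H) (u : H) :
    Psi ρ (MN.g h ⊗ₜ[ZMod 2] (x ⊗ₜ[ZMod 2] MN.g k)) u = if u = h * k then ρ h x else 0 := by
  rw [Psi_tmul, finsum_eq_single _ h]
  · rw [c_gg_self, one_mul]
    split_ifs with hu
    · rw [hu, inv_mul_cancel_left, c_gg_self, one_smul]
    · rw [c_gg_ne fun h1 => hu (by rw [← h1, mul_inv_cancel_left]), zero_smul]
  · intro h' hh'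
    rw [c_gg_ne hh', zero_mul, zero_smul]

/-- the invariant of the part of degree `δ`, on the coset -/
theorem Psi_Pd (hN : Cvx N) (ρ : Representation (ZMod 2) H X) (δ : H ⧸ N) (m : MM (ZMod 2) (MN H) X) (u : H)
    (hu : (u : H ⧸ N) = δ) : Psi ρ (Pd N δ m) u = Psi ρ m u := by
  classical
  induction m using TensorProduct.induction_on with
  | zero => rw [Pd_zero, map_zero]
  | add s t hs ht => rw [Pd_add N hN, map_add, map_add, Pi.add_apply, Pi.add_apply, hs, ht]
  | tmul a t =>
    induction t using TensorProduct.induction_on with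
    | zero => rw [TensorProduct.tmul_zero, Pd_zero, map_zero]
    | add s t hs ht =>
      rw [TensorProduct.tmul_add, Pd_add N hN, map_add, map_add, Pi.add_apply, Pi.add_apply, hs, ht]
    | tmul x b =>
      let E : MM (ZMod 2) (MN H) X →+ X := ((LinearMap.proj u : (H → X) →ₗ[ZMod 2] X).comp (Psi ρ)).toAddMonoidHom
      have hE : ∀ m, E m = Psi ρ m u := fun _ => rfl
      have h1 := map_finsum E (fin_comp N hN δ (a ⊗ₜ[ZMod 2] (x ⊗ₜ[ZMod 2] b)))
      unfold Pd
      rw [← hE, h1]
      set S : Finset H := (MN.mul_fin a b u).toFinset with hS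
      have hval : ∀ α : H ⧸ N, E (comp (pr N) α (α⁻¹ * δ) (a ⊗ₜ[ZMod 2] (x ⊗ₜ[ZMod 2] b))) =
          ∑ h ∈ S, if (h : H ⧸ N) = α then (a.c h * b.c (h⁻¹ * u)) • ρ h x else 0 := by
        intro α
        rw [hE, comp_tmul, Psi_tmul, finsum_eq_sum_of_support_subset (s := S)]
        · refine Finset.sum_congr rfl fun h _ => ?_
          split_ifs with hh
          · rw [pr_c N _ _ _ hh, pr_c N]
            rw [QuotientGroup.mk_mul, QuotientGroup.mk_inv, hh, hu]
          · rw [pr_c_ne N _ _ _ hh, zero_mul, zero_smul]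
        · intro h hh
          rw [Function.mem_support] at hh
          rw [hS, Finset.mem_coe, Set.Finite.mem_toFinset]
          intro h0
          apply hh
          by_cases h1 : (h : H ⧸ N) = α
          · rw [pr_c N _ _ _ h1, pr_c N, h0, zero_smul]
            rw [QuotientGroup.mk_mul, QuotientGroup.mk_inv, h1, hu]
          · rw [pr_c_ne N _ _ _ h1, zero_mul, zero_smul]
      rw [finsum_congr hval, finsum_sum_comm]
      · rw [Psi_tmul, finsum_eq_sum_of_support_subset (s := S)]
        · refine Finset.sum_congr rfl fun h _ => ?_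
          rw [finsum_eq_single _ (h : H ⧸ N) fun α hα => if_neg fun h2 => hα h2.symm, if_pos rfl]
        · intro h hh
          rw [Function.mem_support] at hh
          rw [hS, Finset.mem_coe, Set.Finite.mem_toFinset]
          exact fun h0 => hh (by rw [h0, zero_smul])
      · intro h _
        refine (Set.finite_singleton (h : H ⧸ N)).subset fun α hα => ?_
        rw [Function.mem_support] at hα
        by_contra h2
        exact hα (if_neg fun h3 => h2 h3.symm)

/-- the invariant of the part of degree `δ`, outside of the coset -/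
theorem Psi_Pd_ne (hN : Cvx N) (ρ : Representation (ZMod 2) H X) (δ : H ⧸ N) (m : MM (ZMod 2) (MN H) X) (u : H)
    (hu : (u : H ⧸ N) ≠ δ) : Psi ρ (Pd N δ m) u = 0 := by
  induction m using TensorProduct.induction_on with
  | zero =>
    rw [Pd_zero, map_zero]
    rfl
  | add s t hs ht => rw [Pd_add N hN, map_add, Pi.add_apply, hs, ht, add_zero]
  | tmul a t =>
    induction t using TensorProduct.induction_on with
    | zero =>
      rw [TensorProduct.tmul_zero, Pd_zero, map_zero]
      rfl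
    | add s t hs ht => rw [TensorProduct.tmul_add, Pd_add N hN, map_add, Pi.add_apply, hs, ht, add_zero]
    | tmul x b =>
      let E : MM (ZMod 2) (MN H) X →+ X := ((LinearMap.proj u : (H → X) →ₗ[ZMod 2] X).comp (Psi ρ)).toAddMonoidHom
      have hE : ∀ m, E m = Psi ρ m u := fun _ => rfl
      have h1 := map_finsum E (fin_comp N hN δ (a ⊗ₜ[ZMod 2] (x ⊗ₜ[ZMod 2] b)))
      unfold Pd
      rw [← hE, h1]
      refine finsum_eq_zero_of_forall_eq_zero fun α => ?_
      rw [hE, comp_tmul, Psi_tmul]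
      refine finsum_eq_zero_of_forall_eq_zero fun h => ?_
      by_cases h2 : (h : H ⧸ N) = α
      · rw [pr_c_ne N (α⁻¹ * δ) b (h⁻¹ * u), mul_zero, zero_smul]
        rw [QuotientGroup.mk_mul, QuotientGroup.mk_inv, h2]
        exact fun h3 => hu (mul_left_cancel h3)
      · rw [pr_c_ne N _ _ _ h2, zero_mul, zero_smul]

/-- the invariant of the part of degree `δ` -/
theorem Psi_Pd_zero (hN : Cvx N) (ρ : Representation (ZMod 2) H X) (δ : H ⧸ N) {m : MM (ZMod 2) (MN H) X}
    (hm : Psi ρ m = 0) : Psi ρ (Pd N δ m) = 0 := by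
  funext u
  by_cases hu : (u : H ⧸ N) = δ
  · rw [Psi_Pd N hN ρ δ m u hu, hm]
  · rw [Psi_Pd_ne N hN ρ δ m u hu]
    rfl

variable (H X) in
/-- the sums of tensors of elements of the group -/
noncomputable def GG : Submodule (ZMod 2) (MM (ZMod 2) (MN H) X) :=
  Submodule.span (ZMod 2) {t | ∃ (h k : H) (x : X), t = MN.g h ⊗ₜ[ZMod 2] (x ⊗ₜ[ZMod 2] MN.g k)}

/-- **the kernel of the invariant on the tensors of elements of the group** -/
theorem mem_II_of_Psi (ρ : Representation (ZMod 2) H X) {t : MM (ZMod 2) (MN H) X} (ht : t ∈ GG H X)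
    (h0 : Psi ρ t = 0) : t ∈ II (gh H) ρ (⊤ : Subgroup H) := by
  classical
  let ε : (H →₀ X) →ₗ[ZMod 2] MM (ZMod 2) (MN H) X :=
    Finsupp.lsum (ZMod 2) fun u => (AddMonoidHom.mk' (fun x : X => ((1 : MN H) ⊗ₜ[ZMod 2] (x ⊗ₜ[ZMod 2] MN.g u) :
      MM (ZMod 2) (MN H) X)) fun x x' => by rw [TensorProduct.add_tmul, TensorProduct.tmul_add]).toZModLinearMap 2
  have key : ∃ F : H →₀ X, (∀ u, Psi ρ t u = F u) ∧ t - ε F ∈ II (gh H) ρ (⊤ : Subgroup H) := by
    clear h0
    unfold GG at ht
    induction ht using Submodule.span_induction with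
    | mem t ht =>
      obtain ⟨h, k, x, rfl⟩ := ht
      refine ⟨Finsupp.single (h * k) (ρ h x), fun u => ?_, ?_⟩
      · rw [Psi_gg, Finsupp.single_apply]
        by_cases hu : u = h * k
        · rw [if_pos hu, if_pos hu.symm]
        · rw [if_neg hu, if_neg fun h1 => hu h1.symm]
      · have h1 : ε (Finsupp.single (h * k) (ρ h x)) =
            act (gh H) ρ h (MN.g h ⊗ₜ[ZMod 2] (x ⊗ₜ[ZMod 2] MN.g k)) := by
          have h2 : ε (Finsupp.single (h * k) (ρ h x)) =
              ((1 : MN H) ⊗ₜ[ZMod 2] (ρ h x ⊗ₜ[ZMod 2] MN.g (h * k)) : MM (ZMod 2) (MN H) X) :=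
            Finsupp.lsum_single _ _ _ _
          rw [h2, act_tmul, gh_apply, gh_apply, g_mul_inv, MN.g_mul]
        rw [h1, ← neg_sub]
        exact Submodule.neg_mem _ (act_sub_mem (gh H) ρ (Subgroup.mem_top h) _)
    | zero => exact ⟨0, fun u => by rw [map_zero]; rfl, by rw [map_zero, sub_zero]; exact Submodule.zero_mem _⟩
    | add s t _ _ hs ht =>
      obtain ⟨F, h1, h2⟩ := hs
      obtain ⟨F', h1', h2'⟩ := ht
      refine ⟨F + F', fun u => by rw [map_add, Pi.add_apply, h1, h1', Finsupp.add_apply], ?_⟩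
      have e : s + t - ε (F + F') = (s - ε F) + (t - ε F') := by rw [map_add]; abel
      rw [e]
      exact Submodule.add_mem _ h2 h2'
    | smul a t _ ht =>
      obtain ⟨F, h1, h2⟩ := ht
      refine ⟨a • F, fun u => by rw [map_smul, Pi.smul_apply, h1, Finsupp.smul_apply], ?_⟩
      rw [map_smul, ← smul_sub]
      exact Submodule.smul_mem _ a h2
  obtain ⟨F, h1, h2⟩ := key
  have h3 : F = 0 := by
    ext u
    rw [← h1 u, h0]
    rfl
  rw [h3, map_zero, sub_zero] at h2
  exact h2

/-- finite fibres -/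
def Fine (a : MN H) : Prop := ∀ γ : H ⧸ N, {x : H | a.c x ≠ 0 ∧ (x : H ⧸ N) = γ}.Finite

variable (X) in
/-- the span of the pure tensors with entries in `F` -/
noncomputable def TT (F : Set (MN H)) : Submodule (ZMod 2) (MM (ZMod 2) (MN H) X) :=
  Submodule.span (ZMod 2) {z | ∃ (a : MN H) (x : X) (b : MN H), a ∈ F ∧ b ∈ F ∧
    z = a ⊗ₜ[ZMod 2] (x ⊗ₜ[ZMod 2] b)}

/-- the coefficients of a finite sum -/
theorem c_sum {ι : Type} (s : Finset ι) (f : ι → MN H) (x : H) : (∑ i ∈ s, f i).c x = ∑ i ∈ s, (f i).c x := by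
  classical
  induction s using Finset.induction_on with
  | empty => rw [Finset.sum_empty, Finset.sum_empty, MN.c_zero]
  | insert i s hi ih => rw [Finset.sum_insert hi, Finset.sum_insert hi, MN.c_add, ih]

/-- the components of a fine series are finite sums of elements of the group -/
theorem pr_fine {a : MN H} (ha : Fine N a) (α : H ⧸ N) : ∃ S : Finset H, pr N α a = ∑ h ∈ S, MN.g h := by
  classical
  refine ⟨(ha α).toFinset, MN.ext (funext fun x => ?_)⟩
  rw [c_sum]
  have h2 : ∀ h ∈ (ha α).toFinset, (MN.g h : MN H).c x = if h = x then 1 else 0 := by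
    intro h _
    split_ifs with h1
    · rw [h1, c_gg_self]
    · rw [c_gg_ne fun h3 => h1 h3.symm]
  rw [Finset.sum_congr rfl h2, Finset.sum_ite_eq' (ha α).toFinset x]
  by_cases hx : (x : H ⧸ N) = α
  · rw [pr_c N _ _ _ hx]
    by_cases h0 : a.c x = 0
    · rw [h0, if_neg]
      rw [Set.Finite.mem_toFinset]
      exact fun h3 => h3.1 h0
    · have hm : x ∈ (ha α).toFinset := by
        rw [Set.Finite.mem_toFinset]
        exact ⟨h0, hx⟩
      rw [if_pos hm]
      have : ∀ z : ZMod 2, z ≠ 0 → z = 1 := by decide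
      exact this _ h0
  · rw [pr_c_ne N _ _ _ hx, if_neg]
    rw [Set.Finite.mem_toFinset]
    exact fun h3 => hx h3.2

theorem gg_mem (h k : H) (x : X) : MN.g h ⊗ₜ[ZMod 2] (x ⊗ₜ[ZMod 2] MN.g k) ∈ GG H X := by
  unfold GG
  exact Submodule.subset_span ⟨h, k, x, rfl⟩

/-- the parts of degree `δ` of the tensors of fine series are sums of tensors of elements of the group -/
theorem Pd_mem_GG (hN : Cvx N) {F : Set (MN H)} (hF : ∀ a ∈ F, Fine N a) {m : MM (ZMod 2) (MN H) X}
    (hm : m ∈ TT X F) (δ : H ⧸ N) : Pd N δ m ∈ GG H X := by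
  unfold TT at hm
  induction hm using Submodule.span_induction with
  | mem z hz =>
    obtain ⟨a, x, b, ha, hb, rfl⟩ := hz
    unfold Pd
    refine finsum_induction (fun t => t ∈ GG H X) (Submodule.zero_mem _) (fun _ _ => Submodule.add_mem _) fun α => ?_
    rw [comp_tmul]
    obtain ⟨S, hS⟩ := pr_fine N (hF a ha) α
    obtain ⟨T, hT⟩ := pr_fine N (hF b hb) (α⁻¹ * δ)
    rw [hS, hT, TensorProduct.sum_tmul]
    refine Submodule.sum_mem _ fun h _ => ?_
    rw [TensorProduct.tmul_sum, TensorProduct.tmul_sum]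
    exact Submodule.sum_mem _ fun k _ => gg_mem h k x
  | zero =>
    rw [Pd_zero]
    exact Submodule.zero_mem _
  | add s t _ _ hs ht =>
    rw [Pd_add N hN]
    exact Submodule.add_mem _ hs ht
  | smul k t _ ht =>
    have e : Pd N δ (k • t) = k • Pd N δ t := by
      unfold Pd
      rw [smul_finsum]
      exact finsum_congr fun α => map_smul _ _ _
    rw [e]
    exact Submodule.smul_mem _ k ht

/-- **The fine elements** -/
theorem Pd_II (hN : Cvx N) (ρ : Representation (ZMod 2) H X) {F : Set (MN H)} (hF : ∀ a ∈ F, Fine N a)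
    {m : MM (ZMod 2) (MN H) X} (hm : m ∈ TT X F) (h0 : Psi ρ m = 0) (δ : H ⧸ N) :
    Pd N δ m ∈ II (gh H) ρ (⊤ : Subgroup H) :=
  mem_II_of_Psi ρ (Pd_mem_GG N hN hF hm δ) (Psi_Pd_zero N hN ρ δ h0)

end

end Pool.Agent.S12
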